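import Pool.Agent.H442SN.Lat

/-! The number of lattice points in a ball, and the volume bound (MP_ef2672_gt; helper442). -/

open Matrix Finset MeasureTheory
open scoped ENNReal

namespace Pool.Agent.H442SN

open Pool.Agent.H160R3.Herm

/-- the short vectors (squared length `< τ · minimum`) that are not good -/
def badSet {n : ℕ} (A : Matrix (Fin n) (Fin n) ℝ) (τ : ℝ) (good : (Fin n → ℤ) → Prop) :
    Set (Fin n → ℤ) := {w | w ≠ 0 ∧ nsq A w < τ * minSq A ∧ ¬ good w}

theorem badSet_finite {n : ℕ} {A : Matrix (Fin n) (Fin n) ℝ} (hA : A.det ≠ 0) (τ : ℝ)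
    (good : (Fin n → ℤ) → Prop) : (badSet A τ good).Finite :=
  (finite_lt hA (τ * minSq A)).subset fun _ hw => hw.2.1

theorem minSq_pos {n : ℕ} (hn : 0 < n) {A : Matrix (Fin n) (Fin n) ℝ} (hA : A.det ≠ 0) :
    0 < minSq A := by
  classical
  set e : Fin n → ℤ := fun _ => 1 with he
  have he0 : e ≠ 0 := fun h => by
    have := congrFun h ⟨0, hn⟩
    simp [he] at this
  have hfin : {w : Fin n → ℤ | w ≠ 0 ∧ nsq A w < nsq A e + 1}.Finite :=
    (finite_lt hA (nsq A e + 1)).subset fun w hw => hw.2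
  obtain ⟨w, hw, hmin⟩ := hfin.toFinset.exists_min_image (nsq A)
    ⟨e, by rw [Set.Finite.mem_toFinset]; exact ⟨he0, by linarith⟩⟩
  rw [Set.Finite.mem_toFinset] at hw
  have : Nonempty {w : Fin n → ℤ // w ≠ 0} := ⟨⟨e, he0⟩⟩
  refine lt_of_lt_of_le (nsq_pos hA hw.1) ?_
  apply le_ciInf
  rintro ⟨z, hz⟩
  change nsq A w ≤ nsq A z
  by_cases h : nsq A z < nsq A e + 1
  · exact hmin z (by rw [Set.Finite.mem_toFinset]; exact ⟨hz, h⟩)
  · push Not at h
    exact hw.2.le.trans h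

/-- points of a ball with large mutual distances are few -/
theorem far_card {n : ℕ} {V : Type*} [DecidableEq V] (Q : Finset V) (y : V → Fin n → ℝ) {c d : ℝ}
    (hy : ∀ z ∈ Q, ∑ i, y z i ^ 2 < c)
    (hfar : ∀ z ∈ Q, ∀ w ∈ Q, z ≠ w → d ≤ ∑ i, (y z i - y w i) ^ 2) (hne : Q.Nonempty) :
    ((Q.card : ℝ) - 1) * d < 2 * Q.card * c := by
  have hq : (0 : ℝ) < Q.card := by exact_mod_cast hne.card_pos
  have h1 : ∑ z ∈ Q, ∑ w ∈ Q, ∑ i, (y z i - y w i) ^ 2 =
      2 * Q.card * ∑ z ∈ Q, ∑ i, y z i ^ 2 - 2 * ∑ i, (∑ z ∈ Q, y z i) ^ 2 := by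
    have e1 : ∀ z w, ∑ i, (y z i - y w i) ^ 2 =
        ∑ i, y z i ^ 2 + ∑ i, y w i ^ 2 - 2 * ∑ i, y z i * y w i := by
      intro z w
      rw [Finset.mul_sum, ← Finset.sum_add_distrib, ← Finset.sum_sub_distrib]
      exact Finset.sum_congr rfl fun i _ => by ring
    simp only [e1, Finset.sum_sub_distrib, Finset.sum_add_distrib, Finset.sum_const,
      nsmul_eq_mul, ← Finset.mul_sum]
    have e2 : ∑ z ∈ Q, ∑ w ∈ Q, ∑ i, y z i * y w i = ∑ i, (∑ z ∈ Q, y z i) ^ 2 := by
      have : ∀ i, (∑ z ∈ Q, y z i) ^ 2 = ∑ z ∈ Q, ∑ w ∈ Q, y z i * y w i := by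
        intro i
        rw [sq, Finset.sum_mul_sum]
      simp only [this]
      calc ∑ z ∈ Q, ∑ w ∈ Q, ∑ i, y z i * y w i = ∑ z ∈ Q, ∑ i, ∑ w ∈ Q, y z i * y w i :=
            Finset.sum_congr rfl fun z _ => Finset.sum_comm
        _ = _ := Finset.sum_comm
    rw [e2]
    ring
  have h2 : (Q.card : ℝ) * ((Q.card - 1) * d) ≤ ∑ z ∈ Q, ∑ w ∈ Q, ∑ i, (y z i - y w i) ^ 2 := by
    rw [← nsmul_eq_mul, ← Finset.sum_const]
    apply Finset.sum_le_sum
    intro z hz
    rw [← Finset.add_sum_erase _ _ hz]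
    have h3 : ∑ _w ∈ Q.erase z, d ≤ ∑ w ∈ Q.erase z, ∑ i, (y z i - y w i) ^ 2 := by
      apply Finset.sum_le_sum
      intro w hw
      rw [Finset.mem_erase] at hw
      exact hfar z hz w hw.2 (Ne.symm hw.1)
    rw [Finset.sum_const, Finset.card_erase_of_mem hz, nsmul_eq_mul,
      Nat.cast_sub hne.card_pos, Nat.cast_one] at h3
    have h4 : 0 ≤ ∑ i, (y z i - y z i) ^ 2 := Finset.sum_nonneg fun i _ => sq_nonneg _
    linarith
  have h3 : ∑ z ∈ Q, ∑ i, y z i ^ 2 < Q.card * c := by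
    rw [← nsmul_eq_mul, ← Finset.sum_const]
    exact Finset.sum_lt_sum_of_nonempty hne hy
  have h4 : 0 ≤ ∑ i, (∑ z ∈ Q, y z i) ^ 2 := Finset.sum_nonneg fun i _ => sq_nonneg _
  have h5 : (Q.card : ℝ) * ((Q.card - 1) * d) < Q.card * (2 * Q.card * c) := by
    have h6 : 2 * (Q.card : ℝ) * ∑ z ∈ Q, ∑ i, y z i ^ 2 < 2 * Q.card * (Q.card * c) :=
      mul_lt_mul_of_pos_left h3 (by positivity)
    nlinarith
  exact lt_of_mul_lt_mul_left h5 hq.le

/-- **The number of lattice points in a ball.** -/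
theorem card_ball {n : ℕ} (hn : 0 < n) {A : Matrix (Fin n) (Fin n) ℝ} (hA : A.det ≠ 0)
    {good : (Fin n → ℤ) → Prop} (hneg : ∀ w, good (-w) → good w) {D : ℕ}
    (hD : ∀ P : Finset (Fin n → ℤ), (∀ z ∈ P, ∀ w ∈ P, z ≠ w → good (z - w)) → P.card ≤ D)
    {τ : ℝ} (hτ : 0 < τ) (m : ℕ) (x : Fin n → ℝ) (P : Finset (Fin n → ℤ))
    (hP : ∀ z ∈ P, ∑ i, (x i - A.mulVec (fun j => (z j : ℝ)) i) ^ 2 <
      τ * m / (2 * (m + 1)) * minSq A) :
    P.card ≤ ((badSet A τ good).ncard + 1) * ((m + D).choose m - 1) := by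
  classical
  have hmin := minSq_pos hn hA
  have hfin := badSet_finite hA τ good
  set B := hfin.toFinset with hB
  have hBm : ∀ w, w ∈ B ↔ w ≠ 0 ∧ nsq A w < τ * minSq A ∧ ¬ good w := by
    intro w
    rw [hB, Set.Finite.mem_toFinset]
    rfl
  obtain ⟨Q, hQP, hQ, hcard⟩ := exists_sub P B (by
    intro b hb
    rw [hBm] at hb ⊢
    refine ⟨neg_ne_zero.2 hb.1, ?_, fun h => hb.2.2 (hneg b h)⟩
    rw [nsq_neg]
    exact hb.2.1)
  rw [Set.ncard_eq_toFinset_card _ hfin, ← hB]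
  refine hcard.trans (Nat.mul_le_mul_left _ ?_)
  have hr := ramsey (fun z w : Fin n → ℤ => τ * minSq A ≤ nsq A (z - w)) (by
      intro z w h
      rw [← nsq_neg, neg_sub]
      exact h) m D Q
    (by
      intro S hS hfar
      rcases S.eq_empty_or_nonempty with rfl | hne
      · simp
      · have h1 := far_card S (fun z i => x i - A.mulVec (fun j => (z j : ℝ)) i)
          (c := τ * m / (2 * (m + 1)) * minSq A) (d := τ * minSq A)
          (fun z hz => hP z (hQP (hS hz)))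
          (by
            intro z hz w hw hzw
            refine (hfar z hz w hw hzw).trans (le_of_eq ?_)
            unfold nsq
            have e : (fun j => (((z - w) j : ℤ) : ℝ)) = (fun j => (z j : ℝ)) - (fun j => (w j : ℝ)) := by
              ext j; simp
            rw [e, Matrix.mulVec_sub]
            refine Finset.sum_congr rfl fun i _ => ?_
            rw [Pi.sub_apply]
            ring) hne
        have hpos : 0 < τ * minSq A := by positivity
        have hm1 : (0 : ℝ) < (m : ℝ) + 1 := by positivity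
        have h2 : ((S.card : ℝ) - 1) * (m + 1) < S.card * m := by
          have h3 : 2 * (S.card : ℝ) * (τ * m / (2 * (m + 1)) * minSq A) =
              (S.card * m / (m + 1)) * (τ * minSq A) := by
            field_simp
          rw [h3] at h1
          have h4 := lt_of_mul_lt_mul_right h1 hpos.le
          rwa [lt_div_iff₀ hm1] at h4
        have h5 : (S.card : ℝ) < m + 1 := by linarith
        have h6 : S.card < m + 1 := by exact_mod_cast h5
        omega)
    (by
      intro S hS hnear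
      apply hD S
      intro z hz w hw hzw
      by_contra hg
      apply hQ z (hS hz) w (hS hw) hzw
      rw [hBm]
      refine ⟨sub_ne_zero.2 hzw, ?_, hg⟩
      exact not_le.1 (hnear z hz w hw hzw))
  omega

/-- **The volume bound.** -/
theorem vol_bound {n : ℕ} (hn : 0 < n) {A : Matrix (Fin n) (Fin n) ℝ} (hA : A.det ≠ 0)
    {good : (Fin n → ℤ) → Prop} (hneg : ∀ w, good (-w) → good w) {D : ℕ}
    (hD : ∀ P : Finset (Fin n → ℤ), (∀ z ∈ P, ∀ w ∈ P, z ≠ w → good (z - w)) → P.card ≤ D)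
    {τ : ℝ} (hτ : 0 < τ) (m : ℕ) :
    ballVol A (τ * m / (2 * (m + 1))) ≤
      ((((badSet A τ good).ncard + 1) * ((m + D).choose m - 1) : ℕ) : ℝ) := by
  classical
  have hmin := minSq_pos hn hA
  set t : ℝ := τ * m / (2 * (m + 1)) with ht
  have ht0 : 0 ≤ t := by positivity
  set ρ : ℝ := √(t * minSq A) with hρ
  set N : ℕ := ((badSet A τ good).ncard + 1) * ((m + D).choose m - 1) with hN
  set f : (Fin n → ℝ) →ₗ[ℝ] (Fin n → ℝ) := Matrix.toLin' A with hf
  have hdet : LinearMap.det f ≠ 0 := by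
    rw [hf, LinearMap.det_toLin']
    exact hA
  set T : Set (Fin n → ℝ) := (WithLp.toLp 2) ⁻¹' (Metric.ball (0 : EuclideanSpace ℝ (Fin n)) ρ)
    with hT
  have hTvol : volume T = volume (Metric.ball (0 : EuclideanSpace ℝ (Fin n)) ρ) :=
    (PiLp.volume_preserving_toLp (Fin n)).measure_preimage
      Metric.isOpen_ball.measurableSet.nullMeasurableSet
  have hTm : MeasurableSet T :=
    (PiLp.volume_preserving_toLp (Fin n)).measurable Metric.isOpen_ball.measurableSet
  have hfm : MeasurableSet (f ⁻¹' T) :=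
    (LinearMap.continuous_of_finiteDimensional f).measurable hTm
  have h1 := blich hfm N (by
    intro x P hP
    apply card_ball hn hA hneg hD hτ m (A.mulVec x) P
    intro z hz
    have h2 := hP z hz
    rw [Set.mem_preimage, hT, Set.mem_preimage, mem_ball_zero_iff, EuclideanSpace.norm_eq,
      hρ] at h2
    have h3 := (Real.sqrt_lt_sqrt_iff (Finset.sum_nonneg fun i _ => by positivity)).1 h2
    refine lt_of_le_of_lt (le_of_eq ?_) h3
    refine Finset.sum_congr rfl fun i _ => ?_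
    rw [Real.norm_eq_abs, sq_abs, hf, Matrix.toLin'_apply, Matrix.mulVec_sub]
    rfl)
  rw [Measure.addHaar_preimage_linearMap _ hdet, hTvol, hf, LinearMap.det_toLin'] at h1
  have hfin : volume (Metric.ball (0 : EuclideanSpace ℝ (Fin n)) ρ) ≠ ⊤ :=
    measure_ball_lt_top.ne
  have h4 : (ENNReal.ofReal |A.det⁻¹| *
      volume (Metric.ball (0 : EuclideanSpace ℝ (Fin n)) ρ)).toReal ≤ (N : ℝ) := by
    have := ENNReal.toReal_mono (by simp) h1
    simpa using this
  rw [ENNReal.toReal_mul, ENNReal.toReal_ofReal (abs_nonneg _), abs_inv] at h4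
  unfold ballVol
  rw [← hρ, div_eq_inv_mul]
  exact h4

end Pool.Agent.H442SN
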