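import Pool.Agent.H442SN.Gen

/-! Polynomials of low degree (MP_ef2672_gt; helper442). -/

open Finset

namespace Pool.Agent.H442SN

section
variable {K : Type*} [Field K] {ι J : Type*} [Fintype J]

theorem mul_lin_mem (c : ι → J → K) {m : ℕ} {f : ι → K} (hf : f ∈ polySp c m) (a : J → K) :
    (fun y => f y * ∑ j, a j * c y j) ∈ polySp c (m + 1) := by
  classical
  unfold polySp at hf
  induction hf using Submodule.span_induction with
  | mem f hf =>
    obtain ⟨s, rfl⟩ := hf
    have h : (fun y => mono c m s y * ∑ j, a j * c y j) =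
        ∑ j, a j • mono c (m + 1) (j ::ₛ s) := by
      ext y
      rw [Finset.sum_apply, Finset.mul_sum]
      refine Finset.sum_congr rfl fun j _ => ?_
      simp only [Pi.smul_apply, smul_eq_mul, mono, Sym.coe_cons, Multiset.map_cons,
        Multiset.prod_cons]
      ring
    rw [h]
    exact Submodule.sum_mem _ fun j _ => Submodule.smul_mem _ _ (Submodule.subset_span ⟨_, rfl⟩)
  | zero =>
    have : (fun y => (0 : ι → K) y * ∑ j, a j * c y j) = 0 := by ext y; simp
    rw [this]
    exact Submodule.zero_mem _
  | add f g _ _ hf hg =>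
    have : (fun y => (f + g) y * ∑ j, a j * c y j) =
        (fun y => f y * ∑ j, a j * c y j) + (fun y => g y * ∑ j, a j * c y j) := by
      ext y; simp [add_mul]
    rw [this]
    exact Submodule.add_mem _ hf hg
  | smul r f _ hf =>
    have : (fun y => (r • f) y * ∑ j, a j * c y j) = r • (fun y => f y * ∑ j, a j * c y j) := by
      ext y; simp [mul_assoc]
    rw [this]
    exact Submodule.smul_mem _ _ hf

theorem mul_pow_mem (c : ι → J → K) {m : ℕ} {f : ι → K} (hf : f ∈ polySp c m) (a : J → K)
    (e : ℕ) : (fun y => f y * (∑ j, a j * c y j) ^ e) ∈ polySp c (m + e) := by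
  induction e with
  | zero => simpa using hf
  | succ e ih =>
    have h := mul_lin_mem c ih a
    have e1 : (fun y => f y * (∑ j, a j * c y j) ^ (e + 1)) =
        (fun y => f y * (∑ j, a j * c y j) ^ e * ∑ j, a j * c y j) := by
      ext y; ring
    rw [e1]
    exact h

theorem one_mem (c : ι → J → K) : (fun _ => (1 : K)) ∈ polySp c 0 := by
  apply Submodule.subset_span
  refine ⟨Sym.nil, ?_⟩
  ext y
  simp [mono]

theorem prod_pow_mem (c : ι → J → K) {I : Type*} (T : Finset I) (a : I → J → K) (e : I → ℕ) :
    (fun y => ∏ i ∈ T, (∑ j, a i j * c y j) ^ e i) ∈ polySp c (∑ i ∈ T, e i) := by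
  classical
  induction T using Finset.induction_on with
  | empty => simpa using one_mem c
  | insert i T hi ih =>
    have h := mul_pow_mem c ih (a i) (e i)
    simp only [Finset.prod_insert hi, Finset.sum_insert hi]
    rw [add_comm]
    have e1 : (fun y => (∑ j, a i j * c y j) ^ e i * ∏ i ∈ T, (∑ j, a i j * c y j) ^ e i) =
        (fun y => (∏ i ∈ T, (∑ j, a i j * c y j) ^ e i) * (∑ j, a i j * c y j) ^ e i) := by
      ext y; ring
    rw [e1]
    exact h

theorem polySp_mono (c : ι → J → K) {j0 : J} (h1 : ∀ y, c y j0 = 1) {m m' : ℕ} (h : m ≤ m') :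
    polySp c m ≤ polySp c m' := by
  classical
  intro f hf
  obtain ⟨e, rfl⟩ := Nat.exists_eq_add_of_le h
  have h2 := mul_pow_mem c hf (Pi.single j0 1) e
  have e1 : (fun y => f y * (∑ j, (Pi.single j0 1 : J → K) j * c y j) ^ e) = f := by
    ext y
    simp [Pi.single_apply, h1]
  rwa [e1] at h2

end

/-- the coordinates `(z, 1)` -/
def pc {K : Type*} [Field K] {n : ℕ} (z : Fin n → ℤ) : Option (Fin n) → K
  | some i => z i
  | none => 1

/-- the space of polynomial functions of degree at most `d` -/
def polyFun (K : Type*) [Field K] (n d : ℕ) : Submodule K ((Fin n → ℤ) → K) := polySp pc d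

theorem finrank_polyFun (K : Type*) [Field K] (n d : ℕ) :
    Module.finrank K (polyFun K n d) ≤ (n + d).choose d := by
  classical
  have h := finrank_range_le_card (R := K) (mono (pc : (Fin n → ℤ) → Option (Fin n) → K) d)
  rw [Sym.card_sym_eq_choose] at h
  have h2 : Fintype.card (Option (Fin n)) + d - 1 = n + d := by
    simp only [Fintype.card_option, Fintype.card_fin]
    omega
  rw [h2] at h
  exact h

theorem finite_polySp {K : Type*} [Field K] {ι J : Type*} [Fintype J] [DecidableEq J]
    (c : ι → J → K) (m : ℕ) : FiniteDimensional K (polySp c m) :=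
  FiniteDimensional.span_of_finite K (Set.finite_range _)

/-- the value of a polynomial at an integer vector -/
noncomputable def ev {K : Type*} [Field K] {n : ℕ} (G : MvPolynomial (Fin n) K)
    (w : Fin n → ℤ) : K := MvPolynomial.eval (fun j => (w j : K)) G

theorem ev_trans_mem {K : Type*} [Field K] {n d : ℕ} (G : MvPolynomial (Fin n) K)
    (hd : G.totalDegree ≤ d) (w : Fin n → ℤ) : (fun z => ev G (z - w)) ∈ polyFun K n d := by
  classical
  have h : (fun z => ev G (z - w)) = ∑ e ∈ G.support, G.coeff e •
      (fun z : Fin n → ℤ => ∏ i, (((z - w) i : ℤ) : K) ^ e i) := by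
    ext z
    unfold ev
    rw [MvPolynomial.eval_eq', Finset.sum_apply]
    rfl
  rw [h]
  refine Submodule.sum_mem _ fun e he => Submodule.smul_mem _ _ ?_
  have h1 : ∑ i, e i ≤ d := by
    have h2 := MvPolynomial.le_totalDegree he
    rw [Finsupp.sum_fintype _ _ (fun _ => rfl)] at h2
    exact h2.trans hd
  apply polySp_mono pc (j0 := none) (fun _ => rfl) h1
  have h3 := prod_pow_mem (pc : (Fin n → ℤ) → Option (Fin n) → K) Finset.univ
    (fun i j => match j with
      | some j => if j = i then 1 else 0
      | none => -(w i : K)) e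
  convert h3 using 2 with z
  refine Finset.prod_congr rfl fun i _ => ?_
  congr 1
  rw [Fintype.sum_option]
  simp [pc]
  ring

end Pool.Agent.H442SN
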