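import Pool.Agent.H442SN.Count

/-! Asymptotic form (MP_ef2672_gt; helper442). -/

open Matrix Finset MeasureTheory Filter
open scoped Topology

namespace Pool.Agent.H442SN

open Pool.Agent.H160R3.Herm

theorem choose_x (N m : ℕ) {x : ℝ} (hx : 0 < x) : (N.choose m : ℝ) * x ^ m ≤ (1 + x) ^ N := by
  rcases le_or_gt m N with h | h
  · rw [add_comm, add_pow]
    have h2 := Finset.single_le_sum (f := fun m => x ^ m * 1 ^ (N - m) * (N.choose m : ℝ))
      (s := Finset.range (N + 1)) (fun i _ => by positivity)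
      (Finset.mem_range.2 (Nat.lt_succ_of_le h))
    simp only [one_pow, mul_one] at h2 ⊢
    linarith [mul_comm (x ^ m) (N.choose m : ℝ)]
  · rw [Nat.choose_eq_zero_of_lt h]
    simp only [Nat.cast_zero, zero_mul]
    positivity

/-- Binomial coefficients `C(n + 1 + m, m)`, `m ≤ μ n`, are at most `2 ^ (δ n) / 2`. -/
theorem choose_small {δ : ℝ} (hδ : 0 < δ) : ∃ μ : ℝ, 0 < μ ∧ μ ≤ 1 ∧ ∀ᶠ n : ℕ in atTop, ∀ m : ℕ,
    (m : ℝ) ≤ μ * n → 2 * ((n + 1 + m).choose m : ℝ) ≤ (2 : ℝ) ^ (δ * n) := by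
  -- choose x
  have hx : ∃ x : ℝ, 0 < x ∧ x ≤ 1 ∧ (1 + x) ^ 3 ≤ (2 : ℝ) ^ (δ / 3) := by
    have h1 : Tendsto (fun x : ℝ => (1 + x) ^ 3) (𝓝[>] 0) (𝓝 ((1 + 0) ^ 3)) :=
      ((continuous_const.add continuous_id).pow 3).continuousAt.tendsto.mono_left
        nhdsWithin_le_nhds
    have h2 : ((1 : ℝ) + 0) ^ 3 < (2 : ℝ) ^ (δ / 3) := by
      norm_num
      exact Real.one_lt_rpow (by norm_num) (by positivity)
    have h3 := (h1.eventually (gt_mem_nhds h2)).and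
      ((eventually_mem_nhdsWithin (a := (0 : ℝ)) (s := Set.Ioi 0)).and
        (nhdsWithin_le_nhds (gt_mem_nhds (show (0 : ℝ) < 1 by norm_num))))
    obtain ⟨x, h4, h5, h6⟩ := h3.exists
    exact ⟨x, h5, le_of_lt h6, h4.le⟩
  obtain ⟨x, hx0, hx1, hx3⟩ := hx
  -- choose μ
  have hμ : ∃ μ : ℝ, 0 < μ ∧ μ ≤ 1 ∧ (1 / x) ^ μ ≤ (2 : ℝ) ^ (δ / 3) := by
    have h1 : Tendsto (fun μ : ℝ => (1 / x) ^ μ) (𝓝[>] 0) (𝓝 ((1 / x) ^ (0 : ℝ))) :=
      (Real.continuous_const_rpow (by positivity)).continuousAt.tendsto.mono_left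
        nhdsWithin_le_nhds
    have h2 : (1 / x) ^ (0 : ℝ) < (2 : ℝ) ^ (δ / 3) := by
      rw [Real.rpow_zero]
      exact Real.one_lt_rpow (by norm_num) (by positivity)
    have h3 := (h1.eventually (gt_mem_nhds h2)).and
      ((eventually_mem_nhdsWithin (a := (0 : ℝ)) (s := Set.Ioi 0)).and
        (nhdsWithin_le_nhds (gt_mem_nhds (show (0 : ℝ) < 1 by norm_num))))
    obtain ⟨μ, h4, h5, h6⟩ := h3.exists
    exact ⟨μ, h5, le_of_lt h6, h4.le⟩
  obtain ⟨μ, hμ0, hμ1, hμ2⟩ := hμ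
  refine ⟨μ, hμ0, hμ1, ?_⟩
  filter_upwards [eventually_ge_atTop ⌈3 / δ⌉₊, eventually_ge_atTop 1] with n hn hn1 m hm
  have hn1' : (1 : ℝ) ≤ n := by exact_mod_cast hn1
  have hn' : 3 / δ ≤ n := (Nat.le_ceil _).trans (by exact_mod_cast hn)
  have hn2 : 1 ≤ δ / 3 * n := by
    rw [div_le_iff₀ hδ] at hn'
    linarith
  have hmn : m ≤ n := by
    have : (m : ℝ) ≤ n := hm.trans (by nlinarith)
    exact_mod_cast this
  have hc := choose_x (n + 1 + m) m hx0
  have h1 : (1 + x) ^ (n + 1 + m) ≤ (1 + x) ^ (3 * n) :=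
    pow_le_pow_right₀ (by linarith) (by omega)
  have h2 : (1 + x) ^ (3 * n) ≤ (2 : ℝ) ^ (δ / 3 * n) := by
    rw [pow_mul, Real.rpow_mul (by norm_num), Real.rpow_natCast]
    exact pow_le_pow_left₀ (by positivity) hx3 n
  have h3 : (1 / x) ^ m ≤ (2 : ℝ) ^ (δ / 3 * n) := by
    calc (1 / x) ^ m = (1 / x) ^ (m : ℝ) := (Real.rpow_natCast _ _).symm
      _ ≤ (1 / x) ^ (μ * n) := Real.rpow_le_rpow_of_exponent_le (by
          rw [le_div_iff₀ hx0]; linarith) hm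
      _ = ((1 / x) ^ μ) ^ (n : ℝ) := Real.rpow_mul (by positivity) _ _
      _ ≤ ((2 : ℝ) ^ (δ / 3)) ^ (n : ℝ) :=
          Real.rpow_le_rpow (by positivity) hμ2 (by positivity)
      _ = (2 : ℝ) ^ (δ / 3 * n) := (Real.rpow_mul (by norm_num) _ _).symm
  have h4 : (2 : ℝ) ≤ (2 : ℝ) ^ (δ / 3 * n) := by
    calc (2 : ℝ) = (2 : ℝ) ^ (1 : ℝ) := (Real.rpow_one 2).symm
      _ ≤ _ := Real.rpow_le_rpow_of_exponent_le (by norm_num) hn2
  have h5 : ((n + 1 + m).choose m : ℝ) ≤ (2 : ℝ) ^ (δ / 3 * n) * (2 : ℝ) ^ (δ / 3 * n) := by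
    have h6 : ((n + 1 + m).choose m : ℝ) = ((n + 1 + m).choose m : ℝ) * x ^ m * (1 / x) ^ m := by
      rw [mul_assoc, ← mul_pow, mul_one_div_cancel hx0.ne', one_pow, mul_one]
    rw [h6]
    exact mul_le_mul (hc.trans (h1.trans h2)) h3 (by positivity) (by positivity)
  calc 2 * ((n + 1 + m).choose m : ℝ)
      ≤ (2 : ℝ) ^ (δ / 3 * n) * ((2 : ℝ) ^ (δ / 3 * n) * (2 : ℝ) ^ (δ / 3 * n)) :=
        mul_le_mul h4 h5 (by positivity) (by positivity)
    _ = (2 : ℝ) ^ (δ * n) := by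
        rw [← Real.rpow_add (by norm_num), ← Real.rpow_add (by norm_num)]
        congr 1
        ring

theorem hinv_rpow {n : ℕ} (hn : 0 < n) {A : Matrix (Fin n) (Fin n) ℝ} (hA : A.det ≠ 0) {c t : ℝ}
    (hc : 0 ≤ c) (ht : 0 ≤ t) :
    (√(c / n) * √(t * minSq A)) ^ n / |A.det| = (c * (t * hinv A / n)) ^ ((n : ℝ) / 2) := by
  have hn' : (0 : ℝ) < n := by exact_mod_cast hn
  have hd : 0 < |A.det| := abs_pos.2 hA
  have hm := minSq_nonneg A
  rw [← Real.sqrt_mul (by positivity), Real.sqrt_eq_rpow, ← Real.rpow_natCast,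
    ← Real.rpow_mul (by positivity)]
  have e1 : c * (t * hinv A / n) = (c / n * (t * minSq A)) / |A.det| ^ ((2 : ℝ) / n) := by
    rw [hinv]; field_simp
  have e3 : (1 : ℝ) / 2 * n = n / 2 := by ring
  rw [e1, Real.div_rpow (by positivity) (by positivity), ← Real.rpow_mul hd.le, e3]
  have e2 : (2 : ℝ) / n * (n / 2) = 1 := by field_simp
  rw [e2, Real.rpow_one]

theorem le_ballVol {n : ℕ} (hn : 0 < n) {A : Matrix (Fin n) (Fin n) ℝ} (hA : A.det ≠ 0) {t : ℝ}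
    (ht : 0 ≤ t) :
    (2 * Real.pi * Real.exp 1 * (t * hinv A / n)) ^ ((n : ℝ) / 2) ≤ 3 * n * ballVol A t := by
  have hn' : (0 : ℝ) < n := by exact_mod_cast hn
  rw [← hinv_rpow hn hA (by positivity) ht, ballVol, mul_div_assoc']
  apply div_le_div_of_nonneg_right _ (abs_nonneg _)
  have h1 := volume_ball_ge n hn 0 (√(t * minSq A)) (Real.sqrt_nonneg _)
  have hfin : volume (Metric.ball (0 : EuclideanSpace ℝ (Fin n)) (√(t * minSq A))) ≠ ⊤ :=
    measure_ball_lt_top.ne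
  have h2 := (ENNReal.ofReal_le_iff_le_toReal hfin).1 h1
  rw [div_le_iff₀ (by positivity)] at h2
  linarith

/-- polynomial factors are absorbed -/
theorem three_n_le {q : ℝ} (hq : 1 < q) : ∀ᶠ n : ℕ in atTop, (3 * n : ℝ) ≤ q ^ n := by
  have h := tendsto_pow_const_div_const_pow_of_one_lt 1 hq
  have h2 := h.eventually (gt_mem_nhds (show (0 : ℝ) < 1 / 3 by norm_num))
  filter_upwards [h2] with n hn
  rw [pow_one, div_lt_iff₀ (by positivity)] at hn
  linarith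

theorem hinv_nonneg {n : ℕ} (A : Matrix (Fin n) (Fin n) ℝ) : 0 ≤ hinv A :=
  div_nonneg (minSq_nonneg A) (Real.rpow_nonneg (abs_nonneg _) _)

/-- **The asymptotic bound.** -/
theorem asym {ε : ℝ} (hε : 0 < ε) : ∃ σ : ℝ, 0 < σ ∧ σ ≤ 1 ∧ ∀ᶠ n : ℕ in atTop,
    ∀ A : Matrix (Fin n) (Fin n) ℝ, A.det ≠ 0 → ∀ τ : ℝ, 0 < τ → ∀ s : ℕ, (s : ℝ) ≤ σ * n →
    ∀ good : (Fin n → ℤ) → Prop, (∀ w, good (-w) → good w) →
    (∀ P : Finset (Fin n → ℤ), (∀ z ∈ P, ∀ w ∈ P, z ≠ w → good (z - w)) →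
      P.card ≤ (n + 1 + s).choose s) →
    hinv A / n ≤ 2 / τ * ((1 + ε) / (2 * Real.pi * Real.exp 1)) *
      (((badSet A τ good).ncard : ℝ) + 1) ^ ((2 : ℝ) / n) := by
  set r : ℝ := √(1 + ε) with hr
  have hr1 : 1 < r := by
    rw [hr]
    exact Real.lt_sqrt_of_sq_lt (by linarith)
  have hr2 : r ^ 2 = 1 + ε := Real.sq_sqrt (by linarith)
  set q : ℝ := √r with hq
  have hq1 : 1 < q := by
    rw [hq]
    exact Real.lt_sqrt_of_sq_lt (by linarith)
  have hq2 : q ^ 2 = r := Real.sq_sqrt (by linarith)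
  set u : ℝ := √q with hu
  have hu1 : 1 < u := by
    rw [hu]
    exact Real.lt_sqrt_of_sq_lt (by linarith)
  have hu2 : u ^ 2 = q := Real.sq_sqrt (by linarith)
  have hu0 : 0 < u := by linarith
  -- the number `m`
  set m : ℕ := ⌈1 / (r - 1)⌉₊ with hm
  have hr0 : 0 < r - 1 := by linarith
  have hmr : 1 / (r - 1) ≤ m := Nat.le_ceil _
  have hm0 : (0 : ℝ) < m := lt_of_lt_of_le (by positivity) hmr
  have hmr2 : ((m : ℝ) + 1) / m ≤ r := by
    rw [div_le_iff₀ hr0] at hmr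
    rw [div_le_iff₀ hm0]
    nlinarith
  set δ : ℝ := Real.logb 2 u / m with hδ
  have hlog : 0 < Real.logb 2 u := Real.logb_pos (by norm_num) hu1
  have hδ0 : 0 < δ := div_pos hlog hm0
  obtain ⟨σ, hσ0, hσ1, hσ⟩ := choose_small hδ0
  refine ⟨σ, hσ0, hσ1, ?_⟩
  filter_upwards [hσ, eventually_gt_atTop 0, three_n_le hu1] with n hn hn0 h3n A hA τ hτ s hs
    good hneg hD
  have hn' : (0 : ℝ) < n := by exact_mod_cast hn0
  set D : ℕ := (n + 1 + s).choose s with hDdef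
  have hD1 : 1 ≤ D := Nat.choose_pos (by omega)
  have hD2 : 2 * (D : ℝ) ≤ (2 : ℝ) ^ (δ * n) := hn s hs
  set κ : ℕ := (badSet A τ good).ncard with hκ
  have hvol := vol_bound hn0 hA hneg hD hτ m
  rw [← hκ] at hvol
  set t : ℝ := τ * m / (2 * (m + 1)) with ht
  have ht0 : 0 < t := by positivity
  have hC : (((m + D).choose m - 1 : ℕ) : ℝ) ≤ u ^ n := by
    calc (((m + D).choose m - 1 : ℕ) : ℝ) ≤ (((m + D).choose m : ℕ) : ℝ) := by
          exact_mod_cast Nat.sub_le _ _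
      _ ≤ (((D + 1) ^ m : ℕ) : ℝ) := by exact_mod_cast choose_le_pow' D m
      _ = ((D : ℝ) + 1) ^ m := by push_cast; ring
      _ ≤ ((2 : ℝ) ^ (δ * n)) ^ m := by
          apply pow_le_pow_left₀ (by positivity)
          have : (1 : ℝ) ≤ D := by exact_mod_cast hD1
          linarith
      _ = u ^ n := by
          rw [← Real.rpow_natCast, ← Real.rpow_mul (by norm_num)]
          have e : δ * n * m = Real.logb 2 u * n := by
            rw [hδ]; field_simp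
          rw [e, Real.rpow_mul (by norm_num), Real.rpow_logb (by norm_num) (by norm_num) hu0,
            Real.rpow_natCast]
  have h1 := le_ballVol hn0 hA ht0.le
  have hκ0 : (0 : ℝ) < (κ : ℝ) + 1 := by positivity
  have h2 : (2 * Real.pi * Real.exp 1 * (t * hinv A / n)) ^ ((n : ℝ) / 2) ≤
      (κ + 1) * q ^ n := by
    calc _ ≤ 3 * n * ballVol A t := h1
      _ ≤ 3 * n * ((κ + 1) * u ^ n) := by
          apply mul_le_mul_of_nonneg_left _ (by positivity)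
          refine hvol.trans ?_
          rw [Nat.cast_mul]
          push_cast
          exact mul_le_mul_of_nonneg_left hC hκ0.le
      _ = (κ + 1) * ((3 * n) * u ^ n) := by ring
      _ ≤ (κ + 1) * (u ^ n * u ^ n) := by
          apply mul_le_mul_of_nonneg_left _ hκ0.le
          exact mul_le_mul_of_nonneg_right h3n (by positivity)
      _ = (κ + 1) * q ^ n := by rw [← pow_add, ← two_mul, pow_mul, hu2]
  have hX0 : 0 ≤ 2 * Real.pi * Real.exp 1 * (t * hinv A / n) := by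
    have := hinv_nonneg A
    positivity
  have h3 : 2 * Real.pi * Real.exp 1 * (t * hinv A / n) ≤ ((κ : ℝ) + 1) ^ ((2 : ℝ) / n) * r := by
    have h4 := Real.rpow_le_rpow (by positivity) h2 (show (0 : ℝ) ≤ (2 : ℝ) / n by positivity)
    rw [← Real.rpow_mul hX0, Real.mul_rpow hκ0.le (by positivity), ← Real.rpow_natCast q,
      ← Real.rpow_mul (by linarith)] at h4
    have e1 : (n : ℝ) / 2 * (2 / n) = 1 := by field_simp
    have e2 : (n : ℝ) * (2 / n) = ((2 : ℕ) : ℝ) := by push_cast; field_simp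
    rw [e1, e2, Real.rpow_one, Real.rpow_natCast, hq2] at h4
    exact h4
  set c : ℝ := 2 * Real.pi * Real.exp 1 with hc
  have hc0 : 0 < c := by positivity
  set X : ℝ := ((κ : ℝ) + 1) ^ ((2 : ℝ) / n) with hX
  have hXpos : 0 < X := by positivity
  have h5 : hinv A / n ≤ X * r / (c * t) := by
    rw [le_div_iff₀ (by positivity)]
    calc hinv A / n * (c * t) = c * (t * hinv A / n) := by ring
      _ ≤ _ := h3
  refine h5.trans ?_
  have e3 : X * r / (c * t) = 2 / τ * (r * (((m : ℝ) + 1) / m) / c) * X := by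
    rw [ht]
    field_simp
  rw [e3]
  apply mul_le_mul_of_nonneg_right _ hXpos.le
  apply mul_le_mul_of_nonneg_left _ (by positivity)
  apply div_le_div_of_nonneg_right _ hc0.le
  rw [← hr2, sq]
  exact mul_le_mul_of_nonneg_left hmr2 (by linarith)

end Pool.Agent.H442SN
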