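import Mathlib

/-! A greedy selection and the bound of Erdős and Szekeres (MP_ef2672_gt; helper442). -/

open Finset

namespace Pool.Agent.H442SN

/-- a large subset without bad differences -/
theorem exists_sub {G : Type*} [AddCommGroup G] [DecidableEq G] (P B : Finset G)
    (hB : ∀ b ∈ B, -b ∈ B) : ∃ Q ⊆ P, (∀ z ∈ Q, ∀ w ∈ Q, z ≠ w → z - w ∉ B) ∧
      P.card ≤ (B.card + 1) * Q.card := by
  classical
  set F := P.powerset.filter (fun Q => ∀ z ∈ Q, ∀ w ∈ Q, z ≠ w → z - w ∉ B) with hF
  have hne : F.Nonempty := ⟨∅, by rw [hF, mem_filter]; simp⟩
  obtain ⟨Q, hQ, hmax⟩ := F.exists_max_image Finset.card hne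
  rw [hF, mem_filter, mem_powerset] at hQ
  refine ⟨Q, hQ.1, hQ.2, ?_⟩
  have hcov : P ⊆ Q.biUnion (fun w => (insert 0 B).image (fun b => b + w)) := by
    intro z hz
    rw [mem_biUnion]
    by_contra hcon
    push Not at hcon
    have hzQ : z ∉ Q := by
      intro h
      apply hcon z h
      rw [mem_image]
      exact ⟨0, mem_insert_self _ _, zero_add z⟩
    have hzB : ∀ w ∈ Q, z - w ∉ B := by
      intro w hw h
      apply hcon w hw
      rw [mem_image]
      exact ⟨z - w, mem_insert_of_mem h, by abel⟩
    have hins : insert z Q ∈ F := by
      rw [hF, mem_filter, mem_powerset]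
      refine ⟨insert_subset hz hQ.1, ?_⟩
      intro x hx y hy hxy
      rw [mem_insert] at hx hy
      rcases hx with rfl | hx <;> rcases hy with rfl | hy
      · exact absurd rfl hxy
      · exact hzB y hy
      · intro h
        apply hzB x hx
        have := hB _ h
        rwa [neg_sub] at this
      · exact hQ.2 x hx y hy hxy
    have := hmax _ hins
    rw [card_insert_of_notMem hzQ] at this
    omega
  calc P.card ≤ _ := card_le_card hcov
    _ ≤ ∑ w ∈ Q, ((insert 0 B).image (fun b => b + w)).card := card_biUnion_le
    _ ≤ ∑ _w ∈ Q, (B.card + 1) := by
        apply sum_le_sum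
        intro w _
        exact card_image_le.trans (card_insert_le _ _)
    _ = (B.card + 1) * Q.card := by rw [sum_const, smul_eq_mul, mul_comm]

/-- Erdős–Szekeres: no clique of more than `a` and no independent set of more than `b` points. -/
theorem ramsey {V : Type*} [DecidableEq V] (R : V → V → Prop) (hR : ∀ x y, R x y → R y x) :
    ∀ (a b : ℕ) (P : Finset V),
      (∀ Q ⊆ P, (∀ x ∈ Q, ∀ y ∈ Q, x ≠ y → R x y) → Q.card ≤ a) →
      (∀ Q ⊆ P, (∀ x ∈ Q, ∀ y ∈ Q, x ≠ y → ¬ R x y) → Q.card ≤ b) →
      P.card + 1 ≤ (a + b).choose a := by
  classical
  intro a
  induction a with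
  | zero =>
    intro b P h1 _
    have hP : P = ∅ := by
      rw [Finset.eq_empty_iff_forall_notMem]
      intro x hx
      have := h1 {x} (singleton_subset_iff.2 hx) (by simp)
      simp at this
    rw [hP]
    simp
  | succ a iha =>
    intro b
    induction b with
    | zero =>
      intro P _ h2
      have hP : P = ∅ := by
        rw [Finset.eq_empty_iff_forall_notMem]
        intro x hx
        have := h2 {x} (singleton_subset_iff.2 hx) (by simp)
        simp at this
      rw [hP]
      simp
    | succ b ihb =>
      intro P h1 h2
      rcases P.eq_empty_or_nonempty with rfl | ⟨x, hx⟩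
      · simp only [card_empty, zero_add]
        exact Nat.succ_le_of_lt (Nat.choose_pos (by omega))
      · set N := (P.erase x).filter (fun y => R x y) with hN
        set M := (P.erase x).filter (fun y => ¬ R x y) with hM
        have hNP : N ⊆ P := (filter_subset _ _).trans (erase_subset _ _)
        have hMP : M ⊆ P := (filter_subset _ _).trans (erase_subset _ _)
        have hN1 : N.card + 1 ≤ (a + (b + 1)).choose a := by
          apply iha (b + 1) N
          · intro Q hQ hc
            have hxQ : x ∉ Q := fun h => by
              have := hQ h
              rw [hN, mem_filter] at this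
              exact absurd this.1 (notMem_erase x P)
            have h := h1 (insert x Q) (insert_subset hx (hQ.trans hNP)) (by
              intro u hu v hv huv
              rw [mem_insert] at hu hv
              rcases hu with rfl | hu <;> rcases hv with rfl | hv
              · exact absurd rfl huv
              · exact (mem_filter.1 (hQ hv)).2
              · exact hR _ _ (mem_filter.1 (hQ hu)).2
              · exact hc u hu v hv huv)
            rw [card_insert_of_notMem hxQ] at h
            omega
          · intro Q hQ hc
            exact h2 Q (hQ.trans hNP) hc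
        have hM1 : M.card + 1 ≤ (a + 1 + b).choose (a + 1) := by
          apply ihb M
          · intro Q hQ hc
            exact h1 Q (hQ.trans hMP) hc
          · intro Q hQ hc
            have hxQ : x ∉ Q := fun h => by
              have := hQ h
              rw [hM, mem_filter] at this
              exact absurd this.1 (notMem_erase x P)
            have h := h2 (insert x Q) (insert_subset hx (hQ.trans hMP)) (by
              intro u hu v hv huv
              rw [mem_insert] at hu hv
              rcases hu with rfl | hu <;> rcases hv with rfl | hv
              · exact absurd rfl huv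
              · exact (mem_filter.1 (hQ hv)).2
              · exact fun h => (mem_filter.1 (hQ hu)).2 (hR _ _ h)
              · exact hc u hu v hv huv)
            rw [card_insert_of_notMem hxQ] at h
            omega
        have hsum : P.card = N.card + M.card + 1 := by
          have h3 : N.card + M.card = (P.erase x).card := card_filter_add_card_filter_not _
          rw [card_erase_of_mem hx] at h3
          have h4 : 0 < P.card := card_pos.2 ⟨x, hx⟩
          omega
        have hch : (a + 1 + (b + 1)).choose (a + 1) =
            (a + (b + 1)).choose a + (a + 1 + b).choose (a + 1) := by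
          have e1 : a + 1 + (b + 1) = (a + (b + 1)) + 1 := by omega
          have e2 : a + 1 + b = a + (b + 1) := by omega
          rw [e1, e2, Nat.choose_succ_succ]
        rw [hch, hsum]
        omega

theorem choose_le_pow' (D : ℕ) : ∀ m : ℕ, (m + D).choose m ≤ (D + 1) ^ m := by
  intro m
  induction m with
  | zero => simp
  | succ m ih =>
    have h := Nat.add_one_mul_choose_eq (m + D) m
    have e : m + 1 + D = m + D + 1 := by omega
    rw [e, pow_succ]
    have h2 : (m + D + 1).choose (m + 1) * (m + 1) ≤ (D + 1) ^ m * (D + 1) * (m + 1) := by
      rw [← h]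
      calc (m + D + 1) * (m + D).choose m ≤ ((D + 1) * (m + 1)) * (D + 1) ^ m := by
            apply Nat.mul_le_mul _ ih
            nlinarith [Nat.zero_le (D * m)]
        _ = _ := by ring
    exact Nat.le_of_mul_le_mul_right h2 (Nat.succ_pos m)

end Pool.Agent.H442SN
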