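import Pool.Agent.H442SN.Poly

/-! Consequences for dense lattices (MP_ef2672_gt; helper442). -/

open Matrix Finset MeasureTheory Filter
open scoped Topology

namespace Pool.Agent.H442SN

open Pool.Agent.H160R3.Herm

/-- a common form: `good` with few pairwise good points forces a bad short vector -/
theorem exists_bad {θ τ : ℝ} (hτ : 0 < τ) (h : 2 < θ * τ) : ∃ σ : ℝ, 0 < σ ∧
    ∀ᶠ n : ℕ in atTop, ∀ A : Matrix (Fin n) (Fin n) ℝ, A.det ≠ 0 →
    θ / (2 * Real.pi * Real.exp 1) ≤ hinv A / n → ∀ D : ℕ,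
    (D : ℝ) ≤ (2 : ℝ) ^ (σ * n) →
    ∀ good : (Fin n → ℤ) → Prop, (∀ w, good (-w) → good w) →
    (∀ P : Finset (Fin n → ℤ), (∀ z ∈ P, ∀ w ∈ P, z ≠ w → good (z - w)) → P.card ≤ D) →
    ∃ w : Fin n → ℤ, w ≠ 0 ∧ nsq A w < τ * minSq A ∧ ¬ good w := by
  have hε : 0 < (θ * τ / 2 - 1) / 2 := by linarith
  obtain ⟨σ, hσ0, hσ⟩ := asym' hε
  refine ⟨σ, hσ0, ?_⟩
  filter_upwards [hσ, eventually_gt_atTop 0] with n hn hn0 A hA hθ D hD good hneg hP
  by_contra hcon
  push Not at hcon
  have hempty : badSet A τ good = ∅ := by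
    rw [Set.eq_empty_iff_forall_notMem]
    rintro w ⟨h1, h2, h3⟩
    exact h3 (hcon w h1 h2)
  have h1 := hn A hA τ hτ D hD good hneg hP
  rw [hempty, Set.ncard_empty, Nat.cast_zero, zero_add, Real.one_rpow, mul_one] at h1
  have h2 := hθ.trans h1
  have hc : 0 < 2 * Real.pi * Real.exp 1 := by positivity
  rw [← mul_div_assoc, div_le_div_iff_of_pos_right hc, div_mul_eq_mul_div, le_div_iff₀ hτ] at h2
  linarith

theorem res_neg {n : ℕ} {A : Matrix (Fin n) (Fin n) ℝ} (η : ℝ) (w : Fin n → ℤ) :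
    nsq A (-w) / η = nsq A w / η := by rw [nsq_neg]

/-- **Polynomials.** -/
theorem poly_cor {θ τ : ℝ} (hτ : 0 < τ) (h : 2 < θ * τ) : ∃ σ : ℝ, 0 < σ ∧
    ∀ᶠ n : ℕ in atTop, ∀ A : Matrix (Fin n) (Fin n) ℝ, A.det ≠ 0 →
    θ / (2 * Real.pi * Real.exp 1) ≤ hinv A / n →
    (∀ (K : Type) [Field K] (G : MvPolynomial (Fin n) K), (G.totalDegree : ℝ) ≤ σ * n →
      (∀ w : Fin n → ℤ, w ≠ 0 → nsq A w < τ * minSq A → ev G w = 0) → ev G 0 = 0) ∧
    (∀ η : ℝ, 0 < η → (∀ w : Fin n → ℤ, ∃ N : ℤ, nsq A w = η * N) →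
      ∀ p a : ℕ, p.Prime → ((p ^ a : ℕ) : ℝ) ≤ σ * n →
      ∃ w : Fin n → ℤ, w ≠ 0 ∧ nsq A w < τ * minSq A ∧ ∃ N : ℤ, nsq A w = η * (p ^ a * N)) ∧
    σ * n < ({x : ℝ | ∃ w : Fin n → ℤ, w ≠ 0 ∧ nsq A w < τ * minSq A ∧ nsq A w = x}.ncard : ℝ) := by
  classical
  obtain ⟨σ, hσ0, hσ⟩ := exists_bad hτ h
  obtain ⟨μ, hμ0, hμ1, hμ⟩ := choose_small hσ0
  refine ⟨μ, hμ0, ?_⟩
  filter_upwards [hσ, hμ, eventually_gt_atTop 0] with n hn hch hn0 A hA hθ
  have hn' : (0 : ℝ) < n := by exact_mod_cast hn0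
  have hbin : ∀ s : ℕ, (s : ℝ) ≤ μ * n → (((n + 1 + s).choose s : ℕ) : ℝ) ≤ (2 : ℝ) ^ (σ * n) := by
    intro s hs
    have h1 := hch s hs
    have h2 : (0 : ℝ) ≤ ((n + 1 + s).choose s : ℕ) := Nat.cast_nonneg _
    linarith
  refine ⟨?_, ?_, ?_⟩
  · intro K _ G hd hG
    by_contra h0
    obtain ⟨w, hw0, hw1, hw2⟩ := hn A hA hθ ((n + 1 + G.totalDegree).choose G.totalDegree)
      (hbin _ hd) (fun w => ev G w = 0 ∧ ev G (-w) = 0)
      (by
        rintro w ⟨h1, h2⟩
        rw [neg_neg] at h2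
        exact ⟨h2, h1⟩)
      (by
        intro P hP
        have hfin : FiniteDimensional K (polyFun K n G.totalDegree) := finite_polySp _ _
        have h1 := card_le_trans (O := (⊤ : Subring K)) (k := K) (D :=
          (n + G.totalDegree).choose G.totalDegree) (⊤ : Subring K).subtype (ev G)
          (fun _ => Subring.mem_top _) (polyFun K n G.totalDegree) hfin (finrank_polyFun _ _ _)
          (ev_trans_mem G le_rfl) h0 P (fun z hz w hw hzw => (hP z hz w hw hzw).1)
        exact h1.trans (Nat.choose_le_choose _ (by omega)))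
    apply hw2
    refine ⟨hG w hw0 hw1, hG (-w) (neg_ne_zero.2 hw0) ?_⟩
    rw [nsq_neg]
    exact hw1
  · intro η hη hN p a hp hq
    choose N hN using hN
    have hNn : ∀ w, 0 ≤ N w := by
      intro w
      have h1 := nsq_nonneg A w
      rw [hN] at h1
      have h2 : (0 : ℝ) ≤ N w := by
        by_contra hneg
        push Not at hneg
        nlinarith
      exact_mod_cast h2
    have hs : ((p ^ a - 1 : ℕ) : ℝ) ≤ μ * n := by
      refine le_trans ?_ hq
      exact_mod_cast Nat.sub_le _ _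
    obtain ⟨w, hw0, hw1, hw2⟩ := hn A hA hθ _ (hbin _ hs)
      (fun w => ¬ ∃ N : ℤ, nsq A w = η * (p ^ a * N))
      (by
        intro w hw
        rwa [nsq_neg] at hw)
      (by
        intro P hP
        apply card_le_primePow (q := fun w => nsq A w / η) (nsq_div_isQuad A η)
          (fun w => (N w).toNat) (fun z => ?_) (by simp [nsq_zero]) hp P
        · intro z hz w hw hzw hdvd
          apply hP z hz w hw hzw
          obtain ⟨c, hc⟩ := hdvd
          refine ⟨c, ?_⟩
          rw [hN]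
          congr 1
          have h1 : (((N (z - w)).toNat : ℤ) : ℝ) = (((p ^ a * c : ℕ) : ℤ) : ℝ) := by rw [hc]
          rw [Int.toNat_of_nonneg (hNn _)] at h1
          rw [h1]
          push_cast
          ring
        · rw [hN, mul_div_cancel_left₀ _ hη.ne']
          have h1 : (((N z).toNat : ℤ) : ℝ) = (N z : ℝ) := by rw [Int.toNat_of_nonneg (hNn _)]
          rw [← h1]
          exact Int.cast_natCast _)
    exact ⟨w, hw0, hw1, not_not.1 hw2⟩
  · by_contra hcon
    push Not at hcon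
    set X : Set ℝ := {x : ℝ | ∃ w : Fin n → ℤ, w ≠ 0 ∧ nsq A w < τ * minSq A ∧ nsq A w = x}
      with hX
    have hXfin : X.Finite := by
      apply ((finite_lt hA (τ * minSq A)).image (nsq A)).subset
      rintro x ⟨w, hw0, hw1, rfl⟩
      exact ⟨w, hw1, rfl⟩
    set S : Finset ℝ := hXfin.toFinset with hS
    have hSX : ∀ x, x ∈ S ↔ x ∈ X := fun x => Set.Finite.mem_toFinset _
    have hScard : X.ncard = S.card := Set.ncard_eq_toFinset_card _ hXfin
    rw [hScard] at hcon
    obtain ⟨w, hw0, hw1, hw2⟩ := hn A hA hθ _ (hbin _ hcon)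
      (fun w => nsq A w / 1 ∈ S)
      (by
        intro w hw
        rwa [nsq_neg] at hw)
      (by
        intro P hP
        apply card_le_field (nsq_div_isQuad A 1) (by simp [nsq_zero]) S _ P hP
        intro h0
        rw [hSX] at h0
        obtain ⟨w, hw0, _, hw⟩ := h0
        exact (nsq_pos hA hw0).ne' hw)
    apply hw2
    rw [hSX, div_one]
    exact ⟨w, hw0, hw1, rfl⟩

theorem cw_degree {F : Type*} [Field F] {n r q : ℕ} (f : Fin r → MvPolynomial (Fin n) F) :
    (∏ i, (1 - f i ^ q)).totalDegree ≤ q * ∑ i, (f i).totalDegree := by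
  classical
  refine (MvPolynomial.totalDegree_finsetProd _ _).trans ?_
  rw [Finset.mul_sum]
  apply Finset.sum_le_sum
  intro i _
  refine (MvPolynomial.totalDegree_sub _ _).trans ?_
  rw [MvPolynomial.totalDegree_one]
  exact max_le (Nat.zero_le _) (MvPolynomial.totalDegree_pow _ _)

/-- **A short zero** in the theorem of Chevalley and Warning. -/
theorem cw_cor {n : ℕ} {A : Matrix (Fin n) (Fin n) ℝ} {σ τ : ℝ}
    (hG : ∀ (K : Type) [Field K] (G : MvPolynomial (Fin n) K), (G.totalDegree : ℝ) ≤ σ * n →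
      (∀ w : Fin n → ℤ, w ≠ 0 → nsq A w < τ * minSq A → ev G w = 0) → ev G 0 = 0)
    (F : Type) [Field F] [Fintype F] (r : ℕ) (f : Fin r → MvPolynomial (Fin n) F)
    (h0 : ∀ i, ev (f i) 0 = 0)
    (hd : (((Fintype.card F - 1) * ∑ i, (f i).totalDegree : ℕ) : ℝ) ≤ σ * n) :
    ∃ w : Fin n → ℤ, w ≠ 0 ∧ nsq A w < τ * minSq A ∧ ∀ i, ev (f i) w = 0 := by
  classical
  by_contra hcon
  push Not at hcon
  have hq : Fintype.card F - 1 ≠ 0 := by
    have := Fintype.one_lt_card (α := F)
    omega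
  have hev : ∀ w : Fin n → ℤ, ev (∏ i, (1 - f i ^ (Fintype.card F - 1))) w =
      ∏ i, (1 - ev (f i) w ^ (Fintype.card F - 1)) := by
    intro w
    unfold ev
    rw [map_prod]
    refine Finset.prod_congr rfl fun i _ => ?_
    rw [map_sub, map_one, map_pow]
  have h1 := hG F (∏ i, (1 - f i ^ (Fintype.card F - 1)))
    ((Nat.cast_le.2 (cw_degree f)).trans hd) (by
      intro w hw0 hw1
      obtain ⟨i, hi⟩ := hcon w hw0 hw1
      rw [hev]
      apply Finset.prod_eq_zero (Finset.mem_univ i)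
      rw [FiniteField.pow_card_sub_one_eq_one _ hi, sub_self])
  rw [hev] at h1
  simp [h0, hq] at h1

/-- For every lattice some polynomial of degree at most `n` over `𝔽₂` separates `0` from the
nonzero vectors shorter than twice the minimum. -/
theorem f2_poly {n : ℕ} {A : Matrix (Fin n) (Fin n) ℝ} :
    ∃ G : MvPolynomial (Fin n) (ZMod 2), G.totalDegree ≤ n ∧ ev G 0 ≠ 0 ∧
      ∀ w : Fin n → ℤ, w ≠ 0 → nsq A w < 4 * minSq A → ev G w = 0 := by
  classical
  refine ⟨∏ i, (1 - MvPolynomial.X i), ?_, ?_, ?_⟩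
  · refine (MvPolynomial.totalDegree_finsetProd _ _).trans ?_
    calc ∑ i : Fin n, (1 - MvPolynomial.X i : MvPolynomial (Fin n) (ZMod 2)).totalDegree
        ≤ ∑ _i : Fin n, 1 := by
          apply Finset.sum_le_sum
          intro i _
          refine (MvPolynomial.totalDegree_sub _ _).trans ?_
          rw [MvPolynomial.totalDegree_one, MvPolynomial.totalDegree_X]
          exact max_le (Nat.zero_le _) le_rfl
      _ = n := by simp
  · unfold ev
    rw [map_prod]
    simp
  · intro w hw0 hw1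
    by_contra hne
    unfold ev at hne
    rw [map_prod] at hne
    have h1 := Finset.prod_ne_zero_iff.1 hne
    have h2 : ∀ i, (2 : ℤ) ∣ w i := by
      intro i
      have h3 := h1 i (Finset.mem_univ i)
      rw [map_sub, map_one, MvPolynomial.eval_X] at h3
      have h4 : ((w i : ℤ) : ZMod 2) = 0 := by
        generalize ((w i : ℤ) : ZMod 2) = x at h3
        revert h3
        revert x
        decide
      exact (ZMod.intCast_zmod_eq_zero_iff_dvd _ _).1 h4
    choose y hy using h2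
    have hy0 : y ≠ 0 := by
      rintro rfl
      apply hw0
      ext i
      rw [hy i]
      simp
    have h5 := minSq_le A y hy0
    have h6 : nsq A w = 4 * nsq A y := by
      unfold nsq
      have : (fun j => (w j : ℝ)) = (2 : ℝ) • (fun j => (y j : ℝ)) := by
        ext j
        rw [hy j]
        simp
      rw [this, Matrix.mulVec_smul, Finset.mul_sum]
      refine Finset.sum_congr rfl fun i _ => ?_
      simp only [Pi.smul_apply, smul_eq_mul]
      ring
    rw [h6] at hw1
    have : minSq A ≤ nsq A y := h5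
    linarith

end Pool.Agent.H442SN
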