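import Pool.Agent.H442SN.Asym

/-! Functions with few independent translates (MP_ef2672_gt; helper442). -/

open Matrix Finset MeasureTheory Filter
open scoped Topology

namespace Pool.Agent.H442SN

open Pool.Agent.H160R3.Herm

/-- The translates of `g` span a space of dimension at most `D`, `φ (g 0) ≠ 0` and
`φ (g (z - w)) = 0` for distinct `z, w` in `P`. -/
theorem card_le_trans {K : Type*} [Field K] {O : Subring K} {k : Type*} [Field k] (φ : O →+* k)
    {n D : ℕ} (g : (Fin n → ℤ) → K) (hO : ∀ w, g w ∈ O) (V : Submodule K ((Fin n → ℤ) → K))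
    (hfin : FiniteDimensional K V) (hV : Module.finrank K V ≤ D)
    (htr : ∀ w, (fun z => g (z - w)) ∈ V) (h0 : φ ⟨g 0, hO 0⟩ ≠ 0) (P : Finset (Fin n → ℤ))
    (hP : ∀ z ∈ P, ∀ w ∈ P, z ≠ w → φ ⟨g (z - w), hO _⟩ = 0) : P.card ≤ D := by
  classical
  set T : ((Fin n → ℤ) → K) →ₗ[K] (P → K) := LinearMap.funLeft K K (fun x : P => x.1) with hT
  have hmap : Module.finrank K (V.map T) ≤ D := (Submodule.finrank_map_le T V).trans hV
  have hmem : ∀ x : P, (fun y : P => g (y.1 - x.1)) ∈ V.map T := fun x =>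
    ⟨_, htr x.1, rfl⟩
  have hdet : (Matrix.of (fun x y : P => g (y.1 - x.1))).det ≠ 0 := by
    set M : Matrix P P O := Matrix.of fun x y : P => ⟨g (y.1 - x.1), hO _⟩ with hM
    have e : Matrix.of (fun x y : P => g (y.1 - x.1)) = O.subtype.mapMatrix M := by
      ext x y
      rfl
    rw [e, ← RingHom.map_det]
    have e2 : φ M.det ≠ 0 := by
      rw [RingHom.map_det]
      have e3 : φ.mapMatrix M = Matrix.diagonal (fun _ : P => φ ⟨g 0, hO 0⟩) := by
        ext x y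
        rw [RingHom.mapMatrix_apply, Matrix.map_apply, hM, Matrix.of_apply]
        by_cases hxy : x = y
        · subst hxy
          rw [Matrix.diagonal_apply_eq]
          congr 1
          apply Subtype.ext
          change g (x.1 - x.1) = g 0
          rw [sub_self]
        · rw [Matrix.diagonal_apply_ne _ hxy]
          exact hP y.1 y.2 x.1 x.2 (fun h => hxy (Subtype.ext h.symm))
      rw [e3, Matrix.det_diagonal]
      exact Finset.prod_ne_zero_iff.2 fun _ _ => h0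
    intro h
    apply e2
    have h2 : M.det = 0 := by
      apply Subtype.ext
      exact h
    rw [h2, map_zero]
  have h := card_le_of_det (V.map T) hmap _ hmem hdet
  rwa [Fintype.card_coe] at h

theorem asym' {ε : ℝ} (hε : 0 < ε) : ∃ σ : ℝ, 0 < σ ∧ ∀ᶠ n : ℕ in atTop,
    ∀ A : Matrix (Fin n) (Fin n) ℝ, A.det ≠ 0 → ∀ τ : ℝ, 0 < τ → ∀ D : ℕ,
    (D : ℝ) ≤ (2 : ℝ) ^ (σ * n) →
    ∀ good : (Fin n → ℤ) → Prop, (∀ w, good (-w) → good w) →
    (∀ P : Finset (Fin n → ℤ), (∀ z ∈ P, ∀ w ∈ P, z ≠ w → good (z - w)) → P.card ≤ D) →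
    hinv A / n ≤ 2 / τ * ((1 + ε) / (2 * Real.pi * Real.exp 1)) *
      (((badSet A τ good).ncard : ℝ) + 1) ^ ((2 : ℝ) / n) := by
  set r : ℝ := √(1 + ε) with hr
  have hr1 : 1 < r := by
    rw [hr]
    exact Real.lt_sqrt_of_sq_lt (by linarith)
  have hr2 : r ^ 2 = 1 + ε := Real.sq_sqrt (by linarith)
  set q : ℝ := √r with hq
  have hq1 : 1 < q := by
    rw [hq]
    exact Real.lt_sqrt_of_sq_lt (by linarith)
  have hq2 : q ^ 2 = r := Real.sq_sqrt (by linarith)
  set u : ℝ := √q with hu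
  have hu1 : 1 < u := by
    rw [hu]
    exact Real.lt_sqrt_of_sq_lt (by linarith)
  have hu2 : u ^ 2 = q := Real.sq_sqrt (by linarith)
  have hu0 : 0 < u := by linarith
  -- the number `m`
  set m : ℕ := ⌈1 / (r - 1)⌉₊ with hm
  have hr0 : 0 < r - 1 := by linarith
  have hmr : 1 / (r - 1) ≤ m := Nat.le_ceil _
  have hm0 : (0 : ℝ) < m := lt_of_lt_of_le (by positivity) hmr
  have hmr2 : ((m : ℝ) + 1) / m ≤ r := by
    rw [div_le_iff₀ hr0] at hmr
    rw [div_le_iff₀ hm0]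
    nlinarith
  set δ : ℝ := Real.logb 2 u / m with hδ
  have hlog : 0 < Real.logb 2 u := Real.logb_pos (by norm_num) hu1
  have hδ0 : 0 < δ := div_pos hlog hm0
  refine ⟨δ / 2, by positivity, ?_⟩
  filter_upwards [eventually_ge_atTop ⌈2 / δ⌉₊, eventually_gt_atTop 0, three_n_le hu1]
    with n hn hn0 h3n A hA τ hτ D hDs good hneg hD
  have hn' : (0 : ℝ) < n := by exact_mod_cast hn0
  have hD2 : (D : ℝ) + 1 ≤ (2 : ℝ) ^ (δ * n) := by
    have hn2 : 2 / δ ≤ n := (Nat.le_ceil _).trans (by exact_mod_cast hn)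
    rw [div_le_iff₀ hδ0] at hn2
    have h2 : (2 : ℝ) ≤ (2 : ℝ) ^ (δ / 2 * n) := by
      calc (2 : ℝ) = (2 : ℝ) ^ (1 : ℝ) := (Real.rpow_one 2).symm
        _ ≤ _ := Real.rpow_le_rpow_of_exponent_le (by norm_num) (by linarith)
    calc (D : ℝ) + 1 ≤ (2 : ℝ) ^ (δ / 2 * n) * (2 : ℝ) ^ (δ / 2 * n) := by nlinarith
      _ = (2 : ℝ) ^ (δ * n) := by
          rw [← Real.rpow_add (by norm_num)]
          congr 1
          ring
  set κ : ℕ := (badSet A τ good).ncard with hκ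
  have hvol := vol_bound hn0 hA hneg hD hτ m
  rw [← hκ] at hvol
  set t : ℝ := τ * m / (2 * (m + 1)) with ht
  have ht0 : 0 < t := by positivity
  have hC : (((m + D).choose m - 1 : ℕ) : ℝ) ≤ u ^ n := by
    calc (((m + D).choose m - 1 : ℕ) : ℝ) ≤ (((m + D).choose m : ℕ) : ℝ) := by
          exact_mod_cast Nat.sub_le _ _
      _ ≤ (((D + 1) ^ m : ℕ) : ℝ) := by exact_mod_cast choose_le_pow' D m
      _ = ((D : ℝ) + 1) ^ m := by push_cast; ring
      _ ≤ ((2 : ℝ) ^ (δ * n)) ^ m := pow_le_pow_left₀ (by positivity) hD2 m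
      _ = u ^ n := by
          rw [← Real.rpow_natCast, ← Real.rpow_mul (by norm_num)]
          have e : δ * n * m = Real.logb 2 u * n := by
            rw [hδ]; field_simp
          rw [e, Real.rpow_mul (by norm_num), Real.rpow_logb (by norm_num) (by norm_num) hu0,
            Real.rpow_natCast]
  have h1 := le_ballVol hn0 hA ht0.le
  have hκ0 : (0 : ℝ) < (κ : ℝ) + 1 := by positivity
  have h2 : (2 * Real.pi * Real.exp 1 * (t * hinv A / n)) ^ ((n : ℝ) / 2) ≤
      (κ + 1) * q ^ n := by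
    calc _ ≤ 3 * n * ballVol A t := h1
      _ ≤ 3 * n * ((κ + 1) * u ^ n) := by
          apply mul_le_mul_of_nonneg_left _ (by positivity)
          refine hvol.trans ?_
          rw [Nat.cast_mul]
          push_cast
          exact mul_le_mul_of_nonneg_left hC hκ0.le
      _ = (κ + 1) * ((3 * n) * u ^ n) := by ring
      _ ≤ (κ + 1) * (u ^ n * u ^ n) := by
          apply mul_le_mul_of_nonneg_left _ hκ0.le
          exact mul_le_mul_of_nonneg_right h3n (by positivity)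
      _ = (κ + 1) * q ^ n := by rw [← pow_add, ← two_mul, pow_mul, hu2]
  have hX0 : 0 ≤ 2 * Real.pi * Real.exp 1 * (t * hinv A / n) := by
    have := hinv_nonneg A
    positivity
  have h3 : 2 * Real.pi * Real.exp 1 * (t * hinv A / n) ≤ ((κ : ℝ) + 1) ^ ((2 : ℝ) / n) * r := by
    have h4 := Real.rpow_le_rpow (by positivity) h2 (show (0 : ℝ) ≤ (2 : ℝ) / n by positivity)
    rw [← Real.rpow_mul hX0, Real.mul_rpow hκ0.le (by positivity), ← Real.rpow_natCast q,
      ← Real.rpow_mul (by linarith)] at h4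
    have e1 : (n : ℝ) / 2 * (2 / n) = 1 := by field_simp
    have e2 : (n : ℝ) * (2 / n) = ((2 : ℕ) : ℝ) := by push_cast; field_simp
    rw [e1, e2, Real.rpow_one, Real.rpow_natCast, hq2] at h4
    exact h4
  set c : ℝ := 2 * Real.pi * Real.exp 1 with hc
  have hc0 : 0 < c := by positivity
  set X : ℝ := ((κ : ℝ) + 1) ^ ((2 : ℝ) / n) with hX
  have hXpos : 0 < X := by positivity
  have h5 : hinv A / n ≤ X * r / (c * t) := by
    rw [le_div_iff₀ (by positivity)]
    calc hinv A / n * (c * t) = c * (t * hinv A / n) := by ring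
      _ ≤ _ := h3
  refine h5.trans ?_
  have e3 : X * r / (c * t) = 2 / τ * (r * (((m : ℝ) + 1) / m) / c) * X := by
    rw [ht]
    field_simp
  rw [e3]
  apply mul_le_mul_of_nonneg_right _ hXpos.le
  apply mul_le_mul_of_nonneg_left _ (by positivity)
  apply div_le_div_of_nonneg_right _ hc0.le
  rw [← hr2, sq]
  exact mul_le_mul_of_nonneg_left hmr2 (by linarith)

theorem two_rpow_tendsto : Tendsto (fun n : ℕ => (2 : ℝ) ^ ((2 : ℝ) / n)) atTop (𝓝 1) := by
  have h1 : Tendsto (fun x : ℝ => (2 : ℝ) ^ x) (𝓝 0) (𝓝 ((2 : ℝ) ^ (0 : ℝ))) :=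
    (Real.continuous_const_rpow (by norm_num)).tendsto 0
  rw [Real.rpow_zero] at h1
  exact h1.comp (tendsto_const_div_atTop_nhds_zero_nat 2)

/-- **The general asymptotic bound.** -/
theorem gen_asym {ε : ℝ} (hε : 0 < ε) : ∃ σ : ℝ, 0 < σ ∧ ∀ᶠ n : ℕ in atTop,
    ∀ A : Matrix (Fin n) (Fin n) ℝ, A.det ≠ 0 → ∀ τ : ℝ, 0 < τ →
    ∀ (K : Type) [Field K] (O : Subring K) (k : Type) [Field k] (φ : O →+* k)
      (g : (Fin n → ℤ) → K) (hO : ∀ w, g w ∈ O) (V : Submodule K ((Fin n → ℤ) → K)),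
      FiniteDimensional K V → (Module.finrank K V : ℝ) ≤ (2 : ℝ) ^ (σ * n) →
      (∀ w, (fun z => g (z - w)) ∈ V) → φ ⟨g 0, hO 0⟩ ≠ 0 →
      hinv A / n ≤ 2 / τ * ((1 + ε) / (2 * Real.pi * Real.exp 1)) *
        (({w : Fin n → ℤ | w ≠ 0 ∧ nsq A w < τ * minSq A ∧ φ ⟨g w, hO w⟩ ≠ 0}.ncard : ℝ) + 1) ^
          ((2 : ℝ) / n) := by
  obtain ⟨σ, hσ0, hσ⟩ := asym' (ε := ε / 2) (by positivity)
  refine ⟨σ, hσ0, ?_⟩
  have hlim : ∀ᶠ n : ℕ in atTop, (1 + ε / 2) * (2 : ℝ) ^ ((2 : ℝ) / n) ≤ 1 + ε := by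
    have h1 : Tendsto (fun n : ℕ => (1 + ε / 2) * (2 : ℝ) ^ ((2 : ℝ) / n)) atTop
        (𝓝 ((1 + ε / 2) * 1)) := two_rpow_tendsto.const_mul _
    exact (h1.eventually (gt_mem_nhds (show (1 + ε / 2) * 1 < 1 + ε by linarith))).mono
      fun _ h => h.le
  filter_upwards [hσ, hlim, eventually_gt_atTop 0] with n hn hl hn0 A hA τ hτ K _ O k _ φ g hO V
    hfin hV htr h0
  have hn' : (0 : ℝ) < n := by exact_mod_cast hn0
  set good : (Fin n → ℤ) → Prop := fun w => φ ⟨g w, hO w⟩ = 0 ∧ φ ⟨g (-w), hO (-w)⟩ = 0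
    with hgood
  have h1 := hn A hA τ hτ (Module.finrank K V) hV good
    (by
      intro w h
      rw [hgood] at h ⊢
      refine ⟨?_, h.1⟩
      have := h.2
      simp only [neg_neg] at this
      exact this)
    (by
      intro P hP
      exact card_le_trans φ g hO V hfin le_rfl htr h0 P fun z hz w hw hzw => (hP z hz w hw hzw).1)
  set B : Set (Fin n → ℤ) := {w | w ≠ 0 ∧ nsq A w < τ * minSq A ∧ φ ⟨g w, hO w⟩ ≠ 0} with hB
  have hBfin : B.Finite := (finite_lt hA (τ * minSq A)).subset fun _ hw => hw.2.1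
  have hsub : badSet A τ good ⊆ B ∪ (fun w => -w) '' B := by
    intro w hw
    obtain ⟨hw0, hw1, hw2⟩ := hw
    by_cases h : φ ⟨g w, hO w⟩ = 0
    · right
      have h3 : φ ⟨g (-w), hO (-w)⟩ ≠ 0 := fun h4 => hw2 ⟨h, h4⟩
      refine ⟨-w, ⟨neg_ne_zero.2 hw0, ?_, h3⟩, neg_neg w⟩
      rw [nsq_neg]
      exact hw1
    · left
      exact ⟨hw0, hw1, h⟩
  have hcard : (badSet A τ good).ncard ≤ 2 * B.ncard := by
    calc (badSet A τ good).ncard ≤ (B ∪ (fun w => -w) '' B).ncard :=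
          Set.ncard_le_ncard hsub (hBfin.union (hBfin.image _))
      _ ≤ B.ncard + ((fun w => -w) '' B).ncard := Set.ncard_union_le _ _
      _ ≤ B.ncard + B.ncard := Nat.add_le_add_left (Set.ncard_image_le hBfin) _
      _ = 2 * B.ncard := by ring
  have hc0 : 0 < 2 * Real.pi * Real.exp 1 := by positivity
  refine h1.trans ?_
  have h2 : (((badSet A τ good).ncard : ℝ) + 1) ^ ((2 : ℝ) / n) ≤
      (2 : ℝ) ^ ((2 : ℝ) / n) * ((B.ncard : ℝ) + 1) ^ ((2 : ℝ) / n) := by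
    rw [← Real.mul_rpow (by norm_num) (by positivity)]
    apply Real.rpow_le_rpow (by positivity) _ (by positivity)
    have : ((badSet A τ good).ncard : ℝ) ≤ 2 * B.ncard := by exact_mod_cast hcard
    linarith
  calc 2 / τ * ((1 + ε / 2) / (2 * Real.pi * Real.exp 1)) *
        (((badSet A τ good).ncard : ℝ) + 1) ^ ((2 : ℝ) / n)
      ≤ 2 / τ * ((1 + ε / 2) / (2 * Real.pi * Real.exp 1)) *
        ((2 : ℝ) ^ ((2 : ℝ) / n) * ((B.ncard : ℝ) + 1) ^ ((2 : ℝ) / n)) :=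
        mul_le_mul_of_nonneg_left h2 (by positivity)
    _ = 2 / τ * (((1 + ε / 2) * (2 : ℝ) ^ ((2 : ℝ) / n)) / (2 * Real.pi * Real.exp 1)) *
        ((B.ncard : ℝ) + 1) ^ ((2 : ℝ) / n) := by ring
    _ ≤ _ := by
        apply mul_le_mul_of_nonneg_right _ (by positivity)
        apply mul_le_mul_of_nonneg_left _ (by positivity)
        exact div_le_div_of_nonneg_right hl hc0.le

end Pool.Agent.H442SN
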