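import Mathlib

/-! The polynomial method over a field: linear independence and monomials (MP_ef2672_gt;
helper442). -/

open Finset

namespace Pool.Agent.H442SN

/-- Vectors of a space of dimension at most `D` with a nonsingular evaluation matrix. -/
theorem card_le_of_det {K : Type*} [Field K] {ι : Type*} [Fintype ι] [DecidableEq ι] {D : ℕ}
    (V : Submodule K (ι → K)) (hV : Module.finrank K V ≤ D) (F : ι → ι → K) (hF : ∀ x, F x ∈ V)
    (hdet : (Matrix.of F).det ≠ 0) : Fintype.card ι ≤ D := by
  have h1 : LinearIndependent K F := Matrix.linearIndependent_rows_of_det_ne_zero hdet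
  have h2 : LinearIndependent K (fun x => (⟨F x, hF x⟩ : V)) := by
    apply LinearIndependent.of_comp V.subtype
    exact h1
  exact h2.fintype_card_le_finrank.trans hV

/-- The monomials of degree `m` in coordinates `c`. -/
def mono {K : Type*} [Field K] {ι J : Type*} (c : ι → J → K) (m : ℕ) (σ : Sym J m) : ι → K :=
  fun y => ((σ : Multiset J).map (c y)).prod

/-- The space spanned by the monomials of degree `m`. -/
def polySp {K : Type*} [Field K] {ι J : Type*} (c : ι → J → K) (m : ℕ) : Submodule K (ι → K) :=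
  Submodule.span K (Set.range (mono c m))

theorem finrank_polySp {K : Type*} [Field K] {ι : Type*} {n : ℕ} (c : ι → Fin n ⊕ Bool → K)
    (m : ℕ) : Module.finrank K (polySp c m) ≤ (n + 1 + m).choose m := by
  classical
  have h := finrank_range_le_card (R := K) (mono c m)
  rw [Sym.card_sym_eq_choose] at h
  have h2 : Fintype.card (Fin n ⊕ Bool) + m - 1 = n + 1 + m := by
    simp only [Fintype.card_sum, Fintype.card_fin, Fintype.card_bool]
    omega
  rw [h2] at h
  exact h

theorem prod_mem {K : Type*} [Field K] {ι J : Type*} [Fintype J] [DecidableEq J] (c : ι → J → K)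
    {I : Type*} [Fintype I] [DecidableEq I] {m : ℕ} (hm : Fintype.card I = m) (a : I → J → K) :
    (fun y => ∏ i, ∑ j, a i j * c y j) ∈ polySp c m := by
  classical
  have h : (fun y => ∏ i, ∑ j, a i j * c y j) = ∑ φ : I → J, (∏ i, a i (φ i)) •
        mono c m ⟨Finset.univ.val.map φ, by rw [Multiset.card_map]; exact hm⟩ := by
    ext y
    simp only [mono, Finset.sum_apply, Pi.smul_apply, smul_eq_mul]
    rw [Finset.prod_univ_sum]
    simp only [Fintype.piFinset_univ]
    refine Finset.sum_congr rfl fun φ _ => ?_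
    rw [Finset.prod_mul_distrib]
    congr 1
    rw [Sym.coe_mk, Multiset.map_map]
    rfl
  rw [h]
  exact Submodule.sum_mem _ fun φ _ => Submodule.smul_mem _ _ (Submodule.subset_span ⟨_, rfl⟩)

/-- `q` is a quadratic map, in the form used here. -/
def IsQuad {K : Type*} [Field K] {n : ℕ} (q : (Fin n → ℤ) → K) : Prop :=
  ∃ b : Fin n → (Fin n → ℤ) → K, ∀ z w, q (z - w) = q z + q w - ∑ j, (z j : K) * b j w

/-- the coordinates `(z, 1, q z)` -/
def crd {K : Type*} [Field K] {n : ℕ} (q : (Fin n → ℤ) → K) (z : Fin n → ℤ) : Fin n ⊕ Bool → K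
  | .inl i => z i
  | .inr false => 1
  | .inr true => q z

/-- products of `s` affine functions of `q (z - w)` are polynomials of degree `s` in the
coordinates -/
theorem aff_mem {K : Type*} [Field K] {n s : ℕ} {q : (Fin n → ℤ) → K} (hq : IsQuad q)
    {ι : Type*} (p : ι → Fin n → ℤ) (w : Fin n → ℤ) {I : Type*} [Fintype I] [DecidableEq I]
    (hI : Fintype.card I = s) (α β : I → K) :
    (fun y => ∏ i, (α i * q (p y - w) + β i)) ∈ polySp (fun y => crd q (p y)) s := by
  classical
  obtain ⟨b, hb⟩ := hq
  have h := prod_mem (fun y => crd q (p y)) hI (fun i => (Sum.elim (fun j => - α i * b j w)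
    (fun t => if t then α i else α i * q w + β i) : Fin n ⊕ Bool → K))
  convert h using 2 with y
  refine Finset.prod_congr rfl fun i _ => ?_
  rw [Fintype.sum_sum_type, Fintype.sum_bool]
  simp only [Sum.elim_inl, Sum.elim_inr, crd, if_true, Bool.false_eq_true, if_false, hb]
  rw [mul_sub, mul_add, Finset.mul_sum]
  have : ∑ j, -α i * b j w * (p y j : K) = - ∑ j, α i * ((p y j : K) * b j w) := by
    rw [← Finset.sum_neg_distrib]
    exact Finset.sum_congr rfl fun j _ => by ring
  rw [this]
  ring

/-- **Field version.** Differences with `q`-values in a finite set not containing `0`. -/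
theorem card_le_field {K : Type*} [Field K] {n : ℕ} {q : (Fin n → ℤ) → K} (hq : IsQuad q)
    (h0 : q 0 = 0) (S : Finset K) (hS : (0 : K) ∉ S) (P : Finset (Fin n → ℤ))
    (hP : ∀ z ∈ P, ∀ w ∈ P, z ≠ w → q (z - w) ∈ S) :
    P.card ≤ (n + 1 + S.card).choose S.card := by
  classical
  have hmem : ∀ x : P, (fun y : P => ∏ r : S, (1 * q (y.1 - x.1) + -(r : K))) ∈
      polySp (fun y : P => crd q y.1) S.card := fun x =>
    aff_mem hq (fun y : P => y.1) x.1 (Fintype.card_coe S) (fun _ => 1) (fun r => -(r : K))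
  have hdet : (Matrix.of (fun x y : P => ∏ r : S, (1 * q (y.1 - x.1) + -(r : K)))).det ≠ 0 := by
    have e : (Matrix.of (fun x y : P => ∏ r : S, (1 * q (y.1 - x.1) + -(r : K)))) =
        Matrix.diagonal (fun _ : P => ∏ r : S, -(r : K)) := by
      ext x y
      rw [Matrix.of_apply]
      by_cases hxy : x = y
      · subst hxy
        rw [Matrix.diagonal_apply_eq]
        simp [h0]
      · rw [Matrix.diagonal_apply_ne _ hxy]
        have h1 := hP y.1 y.2 x.1 x.2 (fun h => hxy (Subtype.ext h.symm))
        exact Finset.prod_eq_zero (Finset.mem_univ ⟨_, h1⟩) (by simp)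
    rw [e, Matrix.det_diagonal]
    apply Finset.prod_ne_zero_iff.2
    intro _ _
    apply Finset.prod_ne_zero_iff.2
    intro r _ hr
    apply hS
    rw [neg_eq_zero] at hr
    rw [← hr]
    exact r.2
  have h := card_le_of_det (polySp (fun y : P => crd q y.1) S.card) (finrank_polySp _ _) _ hmem hdet
  rwa [Fintype.card_coe] at h

theorem prod_choose (N s : ℕ) :
    ∏ i : Fin s, ((1 / ((i : ℝ) + 1)) * (N : ℝ) + 1) = ((N + s).choose s : ℕ) := by
  induction s with
  | zero => simp
  | succ s ih =>
    rw [Fin.prod_univ_castSucc]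
    simp only [Fin.val_castSucc, Fin.val_last]
    rw [ih]
    have h := Nat.add_one_mul_choose_eq (N + s) s
    have h2 : ((N + s + 1 : ℕ) : ℝ) * ((N + s).choose s : ℕ) =
        ((N + s + 1).choose (s + 1) : ℕ) * ((s + 1 : ℕ) : ℝ) := by exact_mod_cast h
    have hs : ((s : ℝ) + 1) ≠ 0 := by positivity
    rw [← add_assoc N s 1]
    push_cast at h2
    field_simp
    linear_combination h2

theorem dvd_choose {p a N : ℕ} (hp : p.Prime) (h : ¬ p ^ a ∣ N) :
    p ∣ (N + (p ^ a - 1)).choose (p ^ a - 1) := by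
  by_contra hcon
  apply h
  have hpa : 0 < p ^ a := pow_pos hp.pos a
  have h1 := Nat.add_one_mul_choose_eq (N + (p ^ a - 1)) (p ^ a - 1)
  have e1 : p ^ a - 1 + 1 = p ^ a := by omega
  have e2 : N + (p ^ a - 1) + 1 = N + p ^ a := by omega
  rw [e1, e2] at h1
  have h2 : p ^ a ∣ (N + p ^ a) * (N + (p ^ a - 1)).choose (p ^ a - 1) := by
    rw [h1]
    exact dvd_mul_left _ _
  have h3 : Nat.Coprime (p ^ a) ((N + (p ^ a - 1)).choose (p ^ a - 1)) :=
    Nat.Coprime.pow_left a ((Nat.Prime.coprime_iff_not_dvd hp).2 hcon)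
  have h4 := h3.dvd_of_dvd_mul_right h2
  exact (Nat.dvd_add_left (dvd_refl _)).1 h4

/-- **Prime power version.** Differences with natural `q`-values not divisible by `p ^ a`. -/
theorem card_le_primePow {n : ℕ} {q : (Fin n → ℤ) → ℝ} (hq : IsQuad q) (N : (Fin n → ℤ) → ℕ)
    (hN : ∀ z, q z = N z) (h0 : q 0 = 0) {p a : ℕ} (hp : p.Prime) (P : Finset (Fin n → ℤ))
    (hP : ∀ z ∈ P, ∀ w ∈ P, z ≠ w → ¬ p ^ a ∣ N (z - w)) :
    P.card ≤ (n + 1 + (p ^ a - 1)).choose (p ^ a - 1) := by
  classical
  set s := p ^ a - 1 with hs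
  have hfact : Fact p.Prime := ⟨hp⟩
  have hmem : ∀ x : P, (fun y : P => ∏ i : Fin s, ((1 / ((i : ℝ) + 1)) * q (y.1 - x.1) + 1)) ∈
      polySp (fun y : P => crd q y.1) s := fun x =>
    aff_mem hq (fun y : P => y.1) x.1 (Fintype.card_fin s) (fun i => 1 / ((i : ℝ) + 1)) (fun _ => 1)
  have hdet : (Matrix.of (fun x y : P =>
      ∏ i : Fin s, ((1 / ((i : ℝ) + 1)) * q (y.1 - x.1) + 1))).det ≠ 0 := by
    set M : Matrix P P ℤ := Matrix.of fun x y : P => (((N (y.1 - x.1) + s).choose s : ℕ) : ℤ) with hM
    have e : (Matrix.of (fun x y : P => ∏ i : Fin s, ((1 / ((i : ℝ) + 1)) * q (y.1 - x.1) + 1))) =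
        M.map (Int.castRingHom ℝ) := by
      ext x y
      rw [Matrix.of_apply, Matrix.map_apply, hM, Matrix.of_apply, hN, prod_choose]
      simp
    rw [e]
    have e2 : (M.map (Int.castRingHom ℝ)).det = ((M.det : ℤ) : ℝ) := by
      have := (RingHom.map_det (Int.castRingHom ℝ) M).symm
      simpa using this
    rw [e2]
    have e3 : ((M.det : ℤ) : ZMod p) = 1 := by
      have h1 := RingHom.map_det (Int.castRingHom (ZMod p)) M
      have h2 : (Int.castRingHom (ZMod p)).mapMatrix M = 1 := by
        ext x y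
        rw [RingHom.mapMatrix_apply, Matrix.map_apply, hM, Matrix.of_apply]
        by_cases hxy : x = y
        · subst hxy
          have h3 : N (x.1 - x.1) = 0 := by
            have := hN 0
            rw [h0] at this
            rw [sub_self]
            exact_mod_cast this.symm
          rw [h3]
          simp
        · rw [Matrix.one_apply_ne hxy]
          have h4 := dvd_choose hp (hP y.1 y.2 x.1 x.2 (fun h => hxy (Subtype.ext h.symm)))
          rw [← hs] at h4
          simp only [eq_intCast, Int.cast_natCast]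
          exact (ZMod.natCast_eq_zero_iff _ _).2 h4
      rw [h2, Matrix.det_one] at h1
      simpa using h1
    intro h
    have h5 : M.det = 0 := by exact_mod_cast h
    rw [h5] at e3
    simp at e3
  have h := card_le_of_det (polySp (fun y : P => crd q y.1) s) (finrank_polySp _ _) _ hmem hdet
  rwa [Fintype.card_coe] at h

end Pool.Agent.H442SN
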