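import Mathlib

/-! Volume of a ball, lower bound (copied from `Pool/Agent/H390R2/LP/Hermite.lean`, a starting
file; for MP_ef2672_gt; helper442). -/

open MeasureTheory Finset Filter
open scoped ENNReal Topology

namespace Pool.Agent.H442SN

/-- elementary upper bound for the Gamma function at half integers -/
theorem gamma_half_upper (n : ℕ) (hn : 1 ≤ n) :
    Real.Gamma ((n : ℝ) / 2 + 1) ≤ 3 * n * (√((n : ℝ) / (2 * Real.exp 1))) ^ n := by
  induction n using Nat.twoStepInduction with
  | zero => omega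
  | one =>
    have h1 : Real.Gamma (((1 : ℕ) : ℝ) / 2 + 1) = √Real.pi / 2 := by
      rw [Nat.cast_one, Real.Gamma_add_one (by norm_num), Real.Gamma_one_half_eq]
      ring
    rw [h1, pow_one]
    have h2 : √Real.pi ≤ 2 := by
      rw [Real.sqrt_le_left (by norm_num)]
      linarith [Real.pi_lt_four]
    have h3 : 2 / 5 ≤ √(((1 : ℕ) : ℝ) / (2 * Real.exp 1)) := by
      rw [Real.le_sqrt' (by norm_num)]
      have := Real.exp_one_lt_d9
      rw [Nat.cast_one, le_div_iff₀ (by positivity)]
      nlinarith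
    rw [Nat.cast_one]
    rw [Nat.cast_one] at h3
    linarith
  | more n ih _ =>
    have he : 0 < Real.exp 1 := Real.exp_pos 1
    have hG : Real.Gamma (((n + 2 : ℕ) : ℝ) / 2 + 1)
        = ((n : ℝ) / 2 + 1) * Real.Gamma ((n : ℝ) / 2 + 1) := by
      have : (((n + 2 : ℕ) : ℝ) / 2 + 1) = ((n : ℝ) / 2 + 1) + 1 := by push_cast; ring
      rw [this, Real.Gamma_add_one (by positivity)]
    rw [hG, pow_add, Real.sq_sqrt (by positivity)]
    rcases Nat.eq_zero_or_pos n with h0 | hn
    · subst h0
      simp only [pow_zero, one_mul, Nat.cast_zero, zero_div, zero_add, Real.Gamma_one, mul_one]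
      have := Real.exp_one_lt_d9
      push_cast
      rw [mul_div_assoc', le_div_iff₀ (by positivity)]
      nlinarith
    · have hn' : (0 : ℝ) < n := by exact_mod_cast hn
      have ih' := ih hn
      have key : √((n : ℝ) / (2 * Real.exp 1)) ^ n * Real.exp 1
          ≤ √(((n + 2 : ℕ) : ℝ) / (2 * Real.exp 1)) ^ n * ((n + 2) / n) := by
        -- `(1 + 2/n)^(n/2 + 1) ≥ e`
        have h1 : Real.exp (1 / (n + 2)) * √((n : ℝ) / (2 * Real.exp 1))
            ≤ √(((n + 2 : ℕ) : ℝ) / (2 * Real.exp 1)) := by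
          have e2 : Real.exp (1 / ((n : ℝ) + 2)) = √(Real.exp (2 / (n + 2))) := by
            rw [show (2 / ((n : ℝ) + 2)) = 1 / (n + 2) + 1 / (n + 2) by ring, Real.exp_add,
              Real.sqrt_mul_self (Real.exp_pos _).le]
          rw [e2, ← Real.sqrt_mul (Real.exp_pos _).le]
          apply Real.sqrt_le_sqrt
          have h3 : -(2 / ((n : ℝ) + 2)) + 1 ≤ Real.exp (-(2 / (n + 2))) := Real.add_one_le_exp _
          have h4 : (n : ℝ) / (n + 2) ≤ Real.exp (-(2 / (n + 2))) := by
            refine le_trans (le_of_eq ?_) h3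
            field_simp
            ring
          rw [Real.exp_neg] at h4
          have hE := Real.exp_pos (2 / ((n : ℝ) + 2))
          have h5 : Real.exp (2 / ((n : ℝ) + 2)) * ((n : ℝ) / (n + 2)) ≤ 1 := by
            calc _ ≤ Real.exp (2 / ((n : ℝ) + 2)) * (Real.exp (2 / ((n : ℝ) + 2)))⁻¹ :=
                  mul_le_mul_of_nonneg_left h4 hE.le
              _ = 1 := mul_inv_cancel₀ hE.ne'
          have h6 : Real.exp (2 / ((n : ℝ) + 2)) * n ≤ n + 2 := by
            rw [mul_div_assoc', div_le_one (by positivity)] at h5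
            exact h5
          rw [mul_div_assoc']
          push_cast
          exact div_le_div_of_nonneg_right h6 (by positivity)
        have h2 : Real.exp (n / (n + 2)) * √((n : ℝ) / (2 * Real.exp 1)) ^ n
            ≤ √(((n + 2 : ℕ) : ℝ) / (2 * Real.exp 1)) ^ n := by
          have := pow_le_pow_left₀ (by positivity) h1 n
          rw [mul_pow, ← Real.exp_nat_mul] at this
          refine le_trans (le_of_eq ?_) this
          congr 2
          field_simp
        have h7 : Real.exp 1 ≤ Real.exp (n / (n + 2)) * ((n + 2) / n) := by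
          have e1 : Real.exp 1 = Real.exp (n / (n + 2)) * Real.exp (2 / (n + 2)) := by
            rw [← Real.exp_add]
            congr 1
            field_simp
          rw [e1]
          apply mul_le_mul_of_nonneg_left _ (Real.exp_pos _).le
          have h3 : -(2 / ((n : ℝ) + 2)) + 1 ≤ Real.exp (-(2 / (n + 2))) := Real.add_one_le_exp _
          have h4 : (n : ℝ) / (n + 2) ≤ Real.exp (-(2 / (n + 2))) := by
            refine le_trans (le_of_eq ?_) h3
            field_simp
            ring
          rw [Real.exp_neg] at h4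
          rw [show ((n : ℝ) + 2) / n = ((n : ℝ) / (n + 2))⁻¹ by rw [inv_div]]
          have hE := Real.exp_pos (2 / ((n : ℝ) + 2))
          rw [← inv_inv (Real.exp (2 / ((n : ℝ) + 2)))]
          exact inv_anti₀ (by positivity) h4
        calc √((n : ℝ) / (2 * Real.exp 1)) ^ n * Real.exp 1
            ≤ √((n : ℝ) / (2 * Real.exp 1)) ^ n * (Real.exp (n / (n + 2)) * ((n + 2) / n)) :=
              mul_le_mul_of_nonneg_left h7 (by positivity)
          _ = (Real.exp (n / (n + 2)) * √((n : ℝ) / (2 * Real.exp 1)) ^ n) * ((n + 2) / n) := by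
              ring
          _ ≤ _ := mul_le_mul_of_nonneg_right h2 (by positivity)
      calc ((n : ℝ) / 2 + 1) * Real.Gamma ((n : ℝ) / 2 + 1)
          ≤ ((n : ℝ) / 2 + 1) * (3 * n * (√((n : ℝ) / (2 * Real.exp 1))) ^ n) :=
            mul_le_mul_of_nonneg_left ih' (by positivity)
        _ = (3 * n * ((n : ℝ) / 2 + 1) / Real.exp 1)
            * ((√((n : ℝ) / (2 * Real.exp 1))) ^ n * Real.exp 1) := by
            field_simp
        _ ≤ (3 * n * ((n : ℝ) / 2 + 1) / Real.exp 1)
            * (√(((n + 2 : ℕ) : ℝ) / (2 * Real.exp 1)) ^ n * ((n + 2) / n)) :=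
            mul_le_mul_of_nonneg_left key (by positivity)
        _ = _ := by
            push_cast
            field_simp

/-- Volume of a ball in `ℝⁿ`: at least `(√(2πe/n) r)ⁿ / (3n)`. -/
theorem volume_ball_ge (n : ℕ) (hn : 0 < n) (x : EuclideanSpace ℝ (Fin n)) (r : ℝ) (hr : 0 ≤ r) :
    ENNReal.ofReal ((√(2 * Real.pi * Real.exp 1 / n) * r) ^ n / (3 * n))
      ≤ volume (Metric.ball x r) := by
  have hn' : (0 : ℝ) < n := by exact_mod_cast hn
  have : Nonempty (Fin n) := ⟨⟨0, hn⟩⟩
  rw [EuclideanSpace.volume_ball, Fintype.card_fin, ← ENNReal.ofReal_pow hr,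
    ← ENNReal.ofReal_mul (by positivity)]
  apply ENNReal.ofReal_le_ofReal
  have h1 := gamma_half_upper n hn
  have h2 : 0 < √((n : ℝ) / (2 * Real.exp 1)) := Real.sqrt_pos.mpr (by positivity)
  have h3 : 0 < Real.Gamma ((n : ℝ) / 2 + 1) := Real.Gamma_pos_of_pos (by positivity)
  rw [mul_pow, mul_comm, mul_div_assoc]
  apply mul_le_mul_of_nonneg_left _ (by positivity)
  have e0 : √(2 * Real.pi * Real.exp 1 / n) ^ n
      = √Real.pi ^ n / √((n : ℝ) / (2 * Real.exp 1)) ^ n := by
    rw [← div_pow, ← Real.sqrt_div Real.pi_pos.le]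
    congr 2
    field_simp
  calc √(2 * Real.pi * Real.exp 1 / n) ^ n / (3 * n)
      = √Real.pi ^ n / (3 * n * √((n : ℝ) / (2 * Real.exp 1)) ^ n) := by
        rw [e0, div_div, mul_comm (3 * (n : ℝ))]
    _ ≤ √Real.pi ^ n / Real.Gamma ((n : ℝ) / 2 + 1) :=
        div_le_div_of_nonneg_left (by positivity) h3 h1


end Pool.Agent.H442SN
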