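import Pool.Agent.H160R3.Herm.Upper
import Pool.Agent.H442SN.Rank
import Pool.Agent.H442SN.Comb
import Pool.Agent.H442SN.Vol

/-! Lattices `A ℤⁿ`: norms, Blichfeldt's principle, far sets (MP_ef2672_gt; helper442). -/

open Matrix Finset MeasureTheory
open scoped ENNReal Pointwise

namespace Pool.Agent.H442SN

open Pool.Agent.H160R3.Herm

/-- squared length of the vector `A w` of the lattice `A ℤⁿ` -/
noncomputable def nsq {n : ℕ} (A : Matrix (Fin n) (Fin n) ℝ) (w : Fin n → ℤ) : ℝ :=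
  ∑ i, (Matrix.mulVec A (fun j => (w j : ℝ))) i ^ 2

/-- the Hermite invariant of the lattice `A ℤⁿ` -/
noncomputable def hinv {n : ℕ} (A : Matrix (Fin n) (Fin n) ℝ) : ℝ :=
  minSq A / |A.det| ^ ((2 : ℝ) / (n : ℝ))

/-- the volume of a ball whose squared radius is `t` times the minimum, divided by the covolume -/
noncomputable def ballVol {n : ℕ} (A : Matrix (Fin n) (Fin n) ℝ) (t : ℝ) : ℝ :=
  (volume (Metric.ball (0 : EuclideanSpace ℝ (Fin n)) (√(t * minSq A)))).toReal / |A.det|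

theorem nsq_nonneg {n : ℕ} (A : Matrix (Fin n) (Fin n) ℝ) (w : Fin n → ℤ) : 0 ≤ nsq A w :=
  Finset.sum_nonneg fun _ _ => sq_nonneg _

theorem nsq_zero {n : ℕ} (A : Matrix (Fin n) (Fin n) ℝ) : nsq A 0 = 0 := by
  unfold nsq
  have : (fun j => (((0 : Fin n → ℤ) j : ℤ) : ℝ)) = 0 := by ext j; simp
  rw [this, Matrix.mulVec_zero]
  simp

theorem nsq_neg {n : ℕ} (A : Matrix (Fin n) (Fin n) ℝ) (w : Fin n → ℤ) : nsq A (-w) = nsq A w := by
  unfold nsq
  have : (fun j => ((-w) j : ℝ)) = -(fun j => (w j : ℝ)) := by ext j; simp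
  rw [this, Matrix.mulVec_neg]
  simp

theorem nsq_pos {n : ℕ} {A : Matrix (Fin n) (Fin n) ℝ} (hA : A.det ≠ 0) {w : Fin n → ℤ}
    (hw : w ≠ 0) : 0 < nsq A w := by
  refine lt_of_le_of_ne (nsq_nonneg A w) fun h => hw ?_
  have h1 := (Finset.sum_eq_zero_iff_of_nonneg (fun i _ => sq_nonneg _)).1 h.symm
  have h2 : A.mulVec (fun j => (w j : ℝ)) = 0 := by
    ext i
    have := h1 i (Finset.mem_univ i)
    simpa using this
  have h3 := Matrix.eq_zero_of_mulVec_eq_zero hA h2
  ext j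
  have := congrFun h3 j
  simpa using this

theorem finite_lt {n : ℕ} {A : Matrix (Fin n) (Fin n) ℝ} (hA : A.det ≠ 0) (c : ℝ) :
    {w : Fin n → ℤ | nsq A w < c}.Finite := by
  classical
  set M : ℝ := ∑ i, ∑ j, |A⁻¹ i j| with hM
  set K : ℤ := ⌈M * √c⌉ with hK
  apply Set.Finite.subset (Finset.finite_toSet (Fintype.piFinset fun _ : Fin n => Finset.Icc (-K) K))
  intro w hw
  simp only [Set.mem_ofPred_eq] at hw
  rw [Finset.mem_coe, Fintype.mem_piFinset]
  intro i
  have hdet : IsUnit A.det := isUnit_iff_ne_zero.mpr hA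
  set v := A.mulVec (fun j => (w j : ℝ)) with hv
  have h1 : (w i : ℝ) = ∑ j, A⁻¹ i j * v j := by
    have : A⁻¹.mulVec v = fun j => (w j : ℝ) := by
      rw [hv, Matrix.mulVec_mulVec, Matrix.nonsing_inv_mul _ hdet, Matrix.one_mulVec]
    have h2 := congrFun this i
    rw [← h2]
    rfl
  have h2 : ∀ j, |v j| ≤ √c := by
    intro j
    apply Real.abs_le_sqrt
    refine le_trans ?_ hw.le
    exact Finset.single_le_sum (f := fun i => v i ^ 2) (fun _ _ => sq_nonneg _) (Finset.mem_univ j)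
  have h3 : |(w i : ℝ)| ≤ M * √c := by
    rw [h1]
    calc |∑ j, A⁻¹ i j * v j| ≤ ∑ j, |A⁻¹ i j * v j| := Finset.abs_sum_le_sum_abs _ _
      _ = ∑ j, |A⁻¹ i j| * |v j| := by simp [abs_mul]
      _ ≤ ∑ j, |A⁻¹ i j| * √c := by
          apply Finset.sum_le_sum
          intro j _
          exact mul_le_mul_of_nonneg_left (h2 j) (abs_nonneg _)
      _ = (∑ j, |A⁻¹ i j|) * √c := by rw [Finset.sum_mul]
      _ ≤ M * √c := by
          apply mul_le_mul_of_nonneg_right _ (Real.sqrt_nonneg _)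
          rw [hM]
          exact Finset.single_le_sum (f := fun i => ∑ j, |A⁻¹ i j|)
            (fun _ _ => Finset.sum_nonneg fun _ _ => abs_nonneg _) (Finset.mem_univ i)
  have h4 : |(w i : ℝ)| ≤ K := h3.trans (Int.le_ceil _)
  rw [Finset.mem_Icc]
  rw [abs_le] at h4
  exact_mod_cast h4

/-- the bilinear form -/
noncomputable def bil {n : ℕ} (A : Matrix (Fin n) (Fin n) ℝ) (z w : Fin n → ℤ) : ℝ :=
  ∑ i, (A.mulVec (fun j => (z j : ℝ))) i * (A.mulVec (fun j => (w j : ℝ))) i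

theorem nsq_sub_bil {n : ℕ} (A : Matrix (Fin n) (Fin n) ℝ) (z w : Fin n → ℤ) :
    nsq A (z - w) = nsq A z + nsq A w - 2 * bil A z w := by
  unfold nsq bil
  have : (fun j => (((z - w) j : ℤ) : ℝ)) = (fun j => (z j : ℝ)) - (fun j => (w j : ℝ)) := by
    ext j; simp
  rw [this, Matrix.mulVec_sub, Finset.mul_sum, ← Finset.sum_add_distrib, ← Finset.sum_sub_distrib]
  refine Finset.sum_congr rfl fun i _ => ?_
  rw [Pi.sub_apply]
  ring

theorem bil_expand {n : ℕ} (A : Matrix (Fin n) (Fin n) ℝ) (z w : Fin n → ℤ) :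
    bil A z w = ∑ j, (z j : ℝ) * bil A (Pi.single j 1) w := by
  have h1 : ∀ j, bil A (Pi.single j 1) w = ∑ i, A i j * (A.mulVec (fun j => (w j : ℝ))) i := by
    intro j
    unfold bil
    refine Finset.sum_congr rfl fun i _ => ?_
    congr 1
    simp [Matrix.mulVec, dotProduct, Pi.single_apply]
  simp only [h1, Finset.mul_sum]
  rw [Finset.sum_comm]
  unfold bil
  refine Finset.sum_congr rfl fun i _ => ?_
  simp only [Matrix.mulVec, dotProduct]
  rw [Finset.sum_mul]
  exact Finset.sum_congr rfl fun j _ => by ring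

theorem nsq_sub {n : ℕ} (A : Matrix (Fin n) (Fin n) ℝ) (z w : Fin n → ℤ) :
    nsq A (z - w) = nsq A z + nsq A w -
      ∑ j, (z j : ℝ) * (nsq A (Pi.single j 1) + nsq A w - nsq A (Pi.single j 1 - w)) := by
  rw [nsq_sub_bil, bil_expand, Finset.mul_sum]
  congr 1
  refine Finset.sum_congr rfl fun j _ => ?_
  rw [nsq_sub_bil]
  ring

/-- the residue of the scaled norm -/
noncomputable def res {n : ℕ} {A : Matrix (Fin n) (Fin n) ℝ} {η : ℝ} {R : Subring ℝ} {k : Type*} [Field k]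
    (φ : R →+* k) (hR : ∀ w, nsq A w / η ∈ R) (w : Fin n → ℤ) : k := φ ⟨nsq A w / η, hR w⟩

theorem res_isQuad {n : ℕ} {A : Matrix (Fin n) (Fin n) ℝ} {η : ℝ} {R : Subring ℝ} {k : Type*}
    [Field k] (φ : R →+* k) (hR : ∀ w, nsq A w / η ∈ R) : IsQuad (res φ hR) := by
  refine ⟨fun j w => res φ hR (Pi.single j 1) + res φ hR w - res φ hR (Pi.single j 1 - w), ?_⟩
  intro z w
  have h : (⟨nsq A (z - w) / η, hR _⟩ : R) = ⟨nsq A z / η, hR z⟩ + ⟨nsq A w / η, hR w⟩ -
      ∑ j, (z j : R) * (⟨nsq A (Pi.single j 1) / η, hR _⟩ + ⟨nsq A w / η, hR w⟩ -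
        ⟨nsq A (Pi.single j 1 - w) / η, hR _⟩) := by
    apply Subtype.ext
    push_cast
    rw [nsq_sub, sub_div, add_div, Finset.sum_div]
    congr 1
    refine Finset.sum_congr rfl fun j _ => ?_
    ring
  have h2 := congrArg φ h
  simp only [map_sub, map_add, map_sum, map_mul, map_intCast] at h2
  exact h2

theorem res_zero {n : ℕ} {A : Matrix (Fin n) (Fin n) ℝ} {η : ℝ} {R : Subring ℝ} {k : Type*}
    [Field k] (φ : R →+* k) (hR : ∀ w, nsq A w / η ∈ R) : res φ hR 0 = 0 := by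
  unfold res
  have : (⟨nsq A 0 / η, hR 0⟩ : R) = 0 := by
    apply Subtype.ext
    change nsq A 0 / η = 0
    rw [nsq_zero, zero_div]
  rw [this, map_zero]

theorem nsq_div_isQuad {n : ℕ} (A : Matrix (Fin n) (Fin n) ℝ) (η : ℝ) :
    IsQuad (fun w => nsq A w / η) := by
  refine ⟨fun j w => (nsq A (Pi.single j 1) + nsq A w - nsq A (Pi.single j 1 - w)) / η, ?_⟩
  intro z w
  simp only
  rw [nsq_sub, sub_div, add_div, Finset.sum_div]
  congr 1
  refine Finset.sum_congr rfl fun j _ => ?_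
  ring

/-- **Blichfeldt's principle** for `ℤⁿ`. -/
theorem blich {n : ℕ} {s : Set (Fin n → ℝ)} (hs : MeasurableSet s) (N : ℕ)
    (h : ∀ (x : Fin n → ℝ) (P : Finset (Fin n → ℤ)),
      (∀ z ∈ P, x - (fun j => (z j : ℝ)) ∈ s) → P.card ≤ N) :
    volume s ≤ N := by
  classical
  set b := Pi.basisFun ℝ (Fin n) with hb
  set L : AddSubgroup (Fin n → ℝ) := (Submodule.span ℤ (Set.range b)).toAddSubgroup with hL
  have fund : IsAddFundamentalDomain L (ZSpan.fundamentalDomain b) volume :=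
    ZSpan.isAddFundamentalDomain' b volume
  have hvol : volume (ZSpan.fundamentalDomain b) = 1 := by
    rw [ZSpan.volume_fundamentalDomain]
    have : (Matrix.of b) = (1 : Matrix (Fin n) (Fin n) ℝ) := by
      ext i j
      simp [hb, Matrix.one_apply, Pi.single_apply, eq_comm]
    rw [this]
    simp
  have hcount : Countable L :=
    inferInstanceAs (Countable (Submodule.span ℤ (Set.range b)))
  have hw : ∀ g : L, ∃ w : Fin n → ℤ, (g : Fin n → ℝ) = fun j => (w j : ℝ) := by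
    intro g
    have hxL : (g : Fin n → ℝ) ∈ Submodule.span ℤ (Set.range b) := g.2
    rw [b.mem_span_iff_repr_mem ℤ] at hxL
    choose w hw using hxL
    refine ⟨w, ?_⟩
    ext j
    have := hw j
    simp [hb] at this
    exact this.symm
  choose w hw using hw
  have hinj : Function.Injective w := by
    intro g g' hg
    apply Subtype.ext
    rw [hw g, hw g', hg]
  have h1 : volume s = ∑' g : L, ∫⁻ x in ZSpan.fundamentalDomain b,
      Set.indicator (g +ᵥ s) 1 x := by
    rw [fund.measure_eq_tsum s]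
    congr 1
    ext g
    have hm : MeasurableSet (g +ᵥ s) := hs.const_vadd g
    rw [lintegral_indicator_one hm, Measure.restrict_apply hm]
  rw [h1, ← lintegral_tsum (fun g => (measurable_one.indicator (hs.const_vadd g)).aemeasurable)]
  have h2 : ∀ x, ∑' g : L, Set.indicator (g +ᵥ s) (1 : (Fin n → ℝ) → ℝ≥0∞) x ≤ N := by
    intro x
    rw [ENNReal.tsum_eq_iSup_sum]
    apply iSup_le
    intro T
    have e : ∑ g ∈ T, Set.indicator (g +ᵥ s) (1 : (Fin n → ℝ) → ℝ≥0∞) x =
        ((T.filter (fun g => x ∈ g +ᵥ s)).card : ℝ≥0∞) := by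
      simp only [Set.indicator_apply, Pi.one_apply]
      rw [Finset.card_filter]
      push_cast
      rfl
    rw [e]
    have h3 := h x ((T.filter (fun g => x ∈ g +ᵥ s)).image w) (by
      intro z hz
      rw [Finset.mem_image] at hz
      obtain ⟨g, hg, rfl⟩ := hz
      rw [Finset.mem_filter] at hg
      obtain ⟨y, hy, hy2⟩ := hg.2
      rw [← hw g]
      have e2 : (g : Fin n → ℝ) + y = x := hy2
      rw [← e2, add_sub_cancel_left]
      exact hy)
    rw [Finset.card_image_of_injective _ hinj] at h3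
    exact_mod_cast h3
  calc ∫⁻ x in ZSpan.fundamentalDomain b, ∑' g : L, Set.indicator (g +ᵥ s) 1 x
      ≤ ∫⁻ _x in ZSpan.fundamentalDomain b, (N : ℝ≥0∞) := lintegral_mono h2
    _ = N := by rw [lintegral_const, Measure.restrict_apply_univ, hvol, mul_one]

end Pool.Agent.H442SN
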