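import Mathlib

/-! Volume of a ball, upper bound (copied from `Pool/Agent/TH220/HG/Vol.lean`, a starting
file; for MP_ef2672_gt; helper442). -/

open MeasureTheory Filter
open scoped ENNReal Topology

namespace Pool.Agent.H442SN

/-- elementary lower bound for the Gamma function at half integers -/
theorem gamma_half_lower (n : ℕ) :
    (√((n : ℝ) / (2 * Real.exp 1))) ^ n ≤ Real.Gamma ((n : ℝ) / 2 + 1) := by
  induction n using Nat.twoStepInduction with
  | zero => simp
  | one =>
    have h1 : Real.Gamma (((1 : ℕ) : ℝ) / 2 + 1) = √Real.pi / 2 := by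
      rw [Nat.cast_one, Real.Gamma_add_one (by norm_num), Real.Gamma_one_half_eq]
      ring
    rw [h1, pow_one]
    have h2 : (17 / 10 : ℝ) ≤ √Real.pi := by
      rw [Real.le_sqrt' (by norm_num)]
      linarith [Real.pi_gt_three]
    have h3 : √(((1 : ℕ) : ℝ) / (2 * Real.exp 1)) ≤ 1 / 2 := by
      rw [Real.sqrt_le_left (by norm_num)]
      have := Real.exp_one_gt_d9
      rw [Nat.cast_one, div_le_iff₀ (by positivity)]
      nlinarith
    linarith
  | more n ih _ =>
    have he : 0 < Real.exp 1 := Real.exp_pos 1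
    have hG : Real.Gamma (((n + 2 : ℕ) : ℝ) / 2 + 1)
        = ((n : ℝ) / 2 + 1) * Real.Gamma ((n : ℝ) / 2 + 1) := by
      have : (((n + 2 : ℕ) : ℝ) / 2 + 1) = ((n : ℝ) / 2 + 1) + 1 := by push_cast; ring
      rw [this, Real.Gamma_add_one (by positivity)]
    rw [hG, pow_add, Real.sq_sqrt (by positivity)]
    rcases Nat.eq_zero_or_pos n with h0 | hn
    · subst h0
      simp only [pow_zero, one_mul, Nat.cast_zero, zero_div, zero_add, Real.Gamma_one, mul_one]
      have := Real.exp_one_gt_d9
      push_cast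
      rw [div_le_one (by positivity)]
      linarith
    · have hn' : (0 : ℝ) < n := by exact_mod_cast hn
      -- `(1 + 2/n)^(n/2) ≤ e`
      have h1 : √(((n + 2 : ℕ) : ℝ) / (2 * Real.exp 1)) ≤
          Real.exp (1 / n) * √((n : ℝ) / (2 * Real.exp 1)) := by
        have e2 : Real.exp (1 / (n : ℝ)) = √(Real.exp (2 / n)) := by
          rw [show (2 / (n : ℝ)) = 1 / n + 1 / n by ring, Real.exp_add,
            Real.sqrt_mul_self (Real.exp_pos _).le]
        rw [e2, ← Real.sqrt_mul (Real.exp_pos _).le]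
        apply Real.sqrt_le_sqrt
        have h3 : 2 / (n : ℝ) + 1 ≤ Real.exp (2 / n) := Real.add_one_le_exp _
        rw [mul_div_assoc']
        apply div_le_div_of_nonneg_right _ (by positivity)
        push_cast
        calc (n : ℝ) + 2 = (2 / n + 1) * n := by field_simp; ring
          _ ≤ _ := mul_le_mul_of_nonneg_right h3 hn'.le
      have h2 : √(((n + 2 : ℕ) : ℝ) / (2 * Real.exp 1)) ^ n ≤
          Real.exp 1 * √((n : ℝ) / (2 * Real.exp 1)) ^ n := by
        refine (pow_le_pow_left₀ (Real.sqrt_nonneg _) h1 n).trans (le_of_eq ?_)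
        rw [mul_pow, ← Real.exp_nat_mul]
        congr 2
        field_simp
      calc √(((n + 2 : ℕ) : ℝ) / (2 * Real.exp 1)) ^ n * (((n + 2 : ℕ) : ℝ) / (2 * Real.exp 1))
          ≤ (Real.exp 1 * √((n : ℝ) / (2 * Real.exp 1)) ^ n) *
            (((n + 2 : ℕ) : ℝ) / (2 * Real.exp 1)) :=
            mul_le_mul_of_nonneg_right h2 (by positivity)
        _ = ((n : ℝ) / 2 + 1) * √((n : ℝ) / (2 * Real.exp 1)) ^ n := by
            push_cast
            field_simp
        _ ≤ _ := mul_le_mul_of_nonneg_left ih (by positivity)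

theorem volume_ball_le (n : ℕ) (hn : 0 < n) (x : EuclideanSpace ℝ (Fin n)) (r : ℝ) (hr : 0 ≤ r) :
    volume (Metric.ball x r) ≤ ENNReal.ofReal ((√(2 * Real.pi * Real.exp 1 / n) * r) ^ n) := by
  have hn' : (0 : ℝ) < n := by exact_mod_cast hn
  have : Nonempty (Fin n) := ⟨⟨0, hn⟩⟩
  rw [EuclideanSpace.volume_ball, Fintype.card_fin, ← ENNReal.ofReal_pow hr,
    ← ENNReal.ofReal_mul (by positivity)]
  apply ENNReal.ofReal_le_ofReal
  have h1 := gamma_half_lower n
  have h2 : 0 < √((n : ℝ) / (2 * Real.exp 1)) := Real.sqrt_pos.mpr (by positivity)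
  rw [mul_pow, mul_comm]
  apply mul_le_mul_of_nonneg_right _ (by positivity)
  have e0 : √(2 * Real.pi * Real.exp 1 / n) ^ n
      = √Real.pi ^ n / √((n : ℝ) / (2 * Real.exp 1)) ^ n := by
    rw [← div_pow, ← Real.sqrt_div Real.pi_pos.le]
    congr 2
    field_simp
  rw [e0]
  exact div_le_div_of_nonneg_left (by positivity) (by positivity) h1


end Pool.Agent.H442SN
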