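import Pool.Agent.TH220.HG.Sub
import Pool.Agent.H442SN.Lat
import Pool.Agent.H442SN.Vol2

/-! Integral lattices with minimum `O(n)` (MP_ef2672_gt; helper442). -/

open Matrix Finset MeasureTheory

namespace Pool.Agent.H442SN

open Pool.Agent.H160R3.Herm
open Pool.Agent.TH220.HG (exists_avoid modVec_mem modVec_ne)

theorem nsq_smul {n : ℕ} (A : Matrix (Fin n) (Fin n) ℝ) (c : ℤ) (w : Fin n → ℤ) :
    nsq A (c • w) = (c : ℝ) ^ 2 * nsq A w := by
  unfold nsq
  have : (fun j => ((c • w) j : ℝ)) = (c : ℝ) • (fun j => (w j : ℝ)) := by ext j; simp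
  rw [this, Matrix.mulVec_smul, Finset.mul_sum]
  refine Finset.sum_congr rfl fun i _ => ?_
  simp [mul_pow]

theorem nsq_mul_modMat (k p : ℕ) (A : Matrix (Fin (k + 1)) (Fin (k + 1)) ℝ) (a : Fin k → ℕ)
    (w : Fin (k + 1) → ℤ) : nsq (A * modMat k p a) w = nsq A (modVec k p a w) := by
  unfold nsq
  rw [← Matrix.mulVec_mulVec]
  have : (modMat k p a).mulVec (fun j => (w j : ℝ)) = fun j => (modVec k p a w j : ℝ) := by
    ext i
    exact mulVec_modMat k p a w i
  rw [this]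

/-- a sublattice without vectors of squared length less than `T`, of index at most their number -/
theorem exists_sublat {n : ℕ} (hn : 0 < n) {A : Matrix (Fin n) (Fin n) ℝ} (hA : A.det ≠ 0) {T : ℝ}
    (F : Finset (Fin n → ℤ)) (hmem : ∀ x, x ∈ F ↔ x ≠ 0 ∧ nsq A x < T) (hne : F.Nonempty) :
    ∃ B : Matrix (Fin n) (Fin n) ℝ, B.det ≠ 0 ∧ |B.det| ≤ |A.det| * F.card ∧ T ≤ minSq B ∧
      ∀ w, ∃ w', nsq B w = nsq A w' := by
  classical
  obtain ⟨k, rfl⟩ : ∃ k, n = k + 1 := ⟨n - 1, by omega⟩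
  have hsymm : ∀ x ∈ F, -x ∈ F := by
    intro x hx
    rw [hmem] at hx ⊢
    refine ⟨neg_ne_zero.2 hx.1, ?_⟩
    rw [nsq_neg]
    exact hx.2
  obtain ⟨w0, hw0F⟩ := hne
  have hw0 : w0 ≠ 0 := ((hmem _).1 hw0F).1
  have hF2 : 2 ≤ F.card := by
    have hne : w0 ≠ -w0 := by
      intro h
      apply hw0
      ext i
      have h3 := congrFun h i
      simp only [Pi.neg_apply] at h3
      simp only [Pi.zero_apply]
      omega
    calc 2 = ({w0, -w0} : Finset (Fin (k + 1) → ℤ)).card := (Finset.card_pair hne).symm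
      _ ≤ _ := Finset.card_le_card (by
        intro y hy
        rw [mem_insert, mem_singleton] at hy
        rcases hy with rfl | rfl
        · exact hw0F
        · exact hsymm _ hw0F)
  obtain ⟨p, hp, hp1, hp2⟩ := Nat.exists_prime_lt_and_le_two_mul (F.card / 2) (by omega)
  have : Fact p.Prime := ⟨hp⟩
  have hFp : F.card < 2 * p := by omega
  have hpF : p ≤ F.card := by omega
  have h0 : ∀ x ∈ F, ∃ i, (x i : ZMod p) ≠ 0 := by
    intro x hx
    by_contra hcon
    push Not at hcon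
    have hd : ∀ i, (p : ℤ) ∣ x i := fun i => (ZMod.intCast_zmod_eq_zero_iff_dvd _ _).1 (hcon i)
    choose y hy using hd
    have hxy : x = (p : ℤ) • y := by
      ext i
      rw [hy i]
      simp
    rw [hmem] at hx
    have hy0 : y ≠ 0 := by
      rintro rfl
      apply hx.1
      rw [hxy]
      simp
    have hle : ((Finset.Icc (-(p : ℤ)) p).erase 0).card ≤ F.card := by
      apply Finset.card_le_card_of_injOn (fun j : ℤ => j • y)
      · intro j hj
        rw [Finset.mem_coe, Finset.mem_erase, Finset.mem_Icc] at hj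
        rw [Finset.mem_coe, hmem]
        refine ⟨smul_ne_zero hj.1 hy0, lt_of_le_of_lt ?_ hx.2⟩
        rw [hxy, nsq_smul, nsq_smul]
        apply mul_le_mul_of_nonneg_right _ (nsq_nonneg _ _)
        have : |(j : ℝ)| ≤ |((p : ℤ) : ℝ)| := by
          have h1 : |j| ≤ (p : ℤ) := abs_le.2 hj.2
          rw [abs_of_nonneg (by positivity : (0 : ℝ) ≤ ((p : ℤ) : ℝ))]
          exact_mod_cast h1
        exact sq_le_sq.2 this
      · intro i _ j _ hij
        exact smul_left_injective ℤ hy0 hij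
    rw [Finset.card_erase_of_mem (by rw [Finset.mem_Icc]; constructor <;> simp),
      Int.card_Icc] at hle
    omega
  obtain ⟨a, ha⟩ := exists_avoid k p F hsymm h0 hFp
  set B := A * modMat k p (fun j => (a j).val) with hB
  have hp0 : (0 : ℝ) < p := by exact_mod_cast hp.pos
  have hdet : B.det = A.det * p := by rw [hB, Matrix.det_mul, det_modMat]
  have hdet0 : B.det ≠ 0 := by rw [hdet]; exact mul_ne_zero hA hp0.ne'
  have hnon : Nonempty {w : Fin (k + 1) → ℤ // w ≠ 0} := ⟨⟨w0, hw0⟩⟩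
  refine ⟨B, hdet0, ?_, ?_, ?_⟩
  · rw [hdet, abs_mul, abs_of_pos hp0]
    apply mul_le_mul_of_nonneg_left _ (abs_nonneg _)
    exact_mod_cast hpF
  · apply le_ciInf
    rintro ⟨w, hw⟩
    change T ≤ nsq B w
    rw [hB, nsq_mul_modMat]
    by_contra hcon
    push Not at hcon
    exact ha _ ((hmem _).2 ⟨modVec_ne k p hp.ne_zero _ hw, hcon⟩) (modVec_mem k p a w)
  · intro w
    refine ⟨modVec k p (fun j => (a j).val) w, ?_⟩
    rw [hB, nsq_mul_modMat]

theorem nsq_one {n : ℕ} (w : Fin n → ℤ) :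
    nsq (1 : Matrix (Fin n) (Fin n) ℝ) w = ((∑ i, w i ^ 2 : ℤ) : ℝ) := by
  unfold nsq
  rw [Matrix.one_mulVec]
  push_cast
  rfl

/-- the number of integer points in a ball -/
theorem card_int_ball {n : ℕ} (hn : 0 < n) {R : ℝ} (hR : 0 ≤ R) (F : Finset (Fin n → ℤ))
    (hF : ∀ w ∈ F, nsq (1 : Matrix (Fin n) (Fin n) ℝ) w < R ^ 2) :
    (F.card : ℝ) ≤ (√(2 * Real.pi * Real.exp 1 / n) * (R + √n / 2)) ^ n := by
  classical
  set Q : (Fin n → ℤ) → Set (Fin n → ℝ) := fun w =>
    Set.pi Set.univ (fun i => Set.Ico (w i : ℝ) ((w i : ℝ) + 1)) with hQ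
  have hQm : ∀ w, MeasurableSet (Q w) := fun w =>
    MeasurableSet.univ_pi fun i => measurableSet_Ico
  have hQv : ∀ w, volume (Q w) = 1 := by
    intro w
    rw [hQ]
    simp only
    rw [Real.volume_pi_Ico]
    simp
  have hdisj : (F : Set (Fin n → ℤ)).PairwiseDisjoint Q := by
    intro w _ w' _ hww'
    rw [Function.onFun, Set.disjoint_left]
    intro y hy hy'
    apply hww'
    ext i
    have h1 := hy i (Set.mem_univ i)
    have h2 := hy' i (Set.mem_univ i)
    have h3 : (w i : ℝ) < w' i + 1 := lt_of_le_of_lt h1.1 h2.2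
    have h4 : (w' i : ℝ) < w i + 1 := lt_of_le_of_lt h2.1 h1.2
    have h5 : w i < w' i + 1 := by exact_mod_cast h3
    have h6 : w' i < w i + 1 := by exact_mod_cast h4
    omega
  set x : EuclideanSpace ℝ (Fin n) := WithLp.toLp 2 (fun _ => (1 : ℝ) / 2) with hx
  set T : Set (Fin n → ℝ) := (WithLp.toLp 2) ⁻¹' (Metric.ball x (R + √n / 2)) with hT
  have hTvol : volume T = volume (Metric.ball x (R + √n / 2)) :=
    (PiLp.volume_preserving_toLp (Fin n)).measure_preimage
      Metric.isOpen_ball.measurableSet.nullMeasurableSet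
  have hsub : (⋃ w ∈ F, Q w) ⊆ T := by
    intro y hy
    rw [Set.mem_iUnion₂] at hy
    obtain ⟨w, hw, hyw⟩ := hy
    rw [hT, Set.mem_preimage, Metric.mem_ball]
    set v : EuclideanSpace ℝ (Fin n) := WithLp.toLp 2 (fun i => (w i : ℝ) + 1 / 2) with hv
    have h1 : dist (WithLp.toLp 2 y) v ≤ √n / 2 := by
      rw [EuclideanSpace.dist_eq]
      have h2 : ∑ i, dist ((WithLp.toLp 2 y : EuclideanSpace ℝ (Fin n)) i) (v i) ^ 2 ≤
          ∑ _i : Fin n, ((1 : ℝ) / 2) ^ 2 := by
        apply Finset.sum_le_sum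
        intro i _
        apply pow_le_pow_left₀ dist_nonneg
        have h3 := hyw i (Set.mem_univ i)
        rw [Real.dist_eq, abs_le]
        change -(1 / 2) ≤ y i - ((w i : ℝ) + 1 / 2) ∧ y i - ((w i : ℝ) + 1 / 2) ≤ 1 / 2
        constructor <;> linarith [h3.1, h3.2]
      refine (Real.sqrt_le_sqrt h2).trans (le_of_eq ?_)
      rw [Finset.sum_const, Finset.card_univ, Fintype.card_fin, nsmul_eq_mul,
        Real.sqrt_mul (Nat.cast_nonneg n), Real.sqrt_sq (by norm_num)]
      ring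
    have h4 : dist v x < R := by
      rw [EuclideanSpace.dist_eq]
      have h5 : ∑ i, dist (v i) (x i) ^ 2 = nsq (1 : Matrix (Fin n) (Fin n) ℝ) w := by
        rw [nsq_one]
        push_cast
        refine Finset.sum_congr rfl fun i _ => ?_
        rw [Real.dist_eq, sq_abs]
        change ((w i : ℝ) + 1 / 2 - 1 / 2) ^ 2 = _
        ring
      rw [h5]
      exact Real.sqrt_lt' (lt_of_le_of_ne hR (by
        rintro rfl
        have := hF w hw
        have h6 := nsq_nonneg (1 : Matrix (Fin n) (Fin n) ℝ) w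
        norm_num at this
        linarith)) |>.2 (hF w hw)
    calc dist (WithLp.toLp 2 y) x ≤ dist (WithLp.toLp 2 y) v + dist v x := dist_triangle _ _ _
      _ < R + √n / 2 := by linarith
  have h1 : (F.card : ENNReal) ≤
      ENNReal.ofReal ((√(2 * Real.pi * Real.exp 1 / n) * (R + √n / 2)) ^ n) := by
    calc (F.card : ENNReal) = volume (⋃ w ∈ F, Q w) := by
          rw [measure_biUnion_finset hdisj fun w _ => hQm w]
          simp [hQv]
      _ ≤ volume T := measure_mono hsub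
      _ = _ := hTvol
      _ ≤ _ := volume_ball_le n hn x _ (by positivity)
  have h2 : 0 ≤ (√(2 * Real.pi * Real.exp 1 / n) * (R + √n / 2)) ^ n := by positivity
  have h3 := ENNReal.toReal_mono (by simp) h1
  rwa [ENNReal.toReal_natCast, ENNReal.toReal_ofReal h2] at h3

/-- **Integral lattices with minimum `O(n)`.** -/
theorem sharp {θ : ℝ} (hθ : θ < 1) : ∃ C : ℝ, ∀ n : ℕ, 0 < n →
    ∃ A : Matrix (Fin n) (Fin n) ℝ, A.det ≠ 0 ∧
      θ / (2 * Real.pi * Real.exp 1) ≤ hinv A / n ∧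
      (∀ w : Fin n → ℤ, ∃ N : ℤ, nsq A w = N) ∧ minSq A ≤ C * n := by
  classical
  set s : ℝ := max 2 (1 / (1 - θ)) with hs
  have hs2 : 2 ≤ s := le_max_left _ _
  have hsθ : 1 / (1 - θ) ≤ s := le_max_right _ _
  have hs0 : 0 < s := by linarith
  have h1θ : 0 < 1 - θ := by linarith
  set c : ℝ := 2 * Real.pi * Real.exp 1 with hc
  have hc0 : 0 < c := by positivity
  refine ⟨c * (s + 1 / 2) ^ 2, fun n hn => ?_⟩
  have hn' : (0 : ℝ) < n := by exact_mod_cast hn
  have hn1 : (1 : ℝ) ≤ n := by exact_mod_cast hn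
  set R : ℝ := s * √n with hR
  have hR0 : 0 ≤ R := by positivity
  have hRsq : R ^ 2 = s ^ 2 * n := by rw [hR, mul_pow, Real.sq_sqrt hn'.le]
  have hdet1 : (1 : Matrix (Fin n) (Fin n) ℝ).det ≠ 0 := by simp
  have hfin : {x : Fin n → ℤ | x ≠ 0 ∧ nsq (1 : Matrix (Fin n) (Fin n) ℝ) x < R ^ 2}.Finite :=
    (finite_lt hdet1 (R ^ 2)).subset fun _ h => h.2
  set F := hfin.toFinset with hF
  have hmem : ∀ x, x ∈ F ↔ x ≠ 0 ∧ nsq (1 : Matrix (Fin n) (Fin n) ℝ) x < R ^ 2 := by
    intro x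
    rw [hF, Set.Finite.mem_toFinset]
    rfl
  have hne : F.Nonempty := by
    refine ⟨Pi.single ⟨0, hn⟩ 1, ?_⟩
    rw [hmem]
    constructor
    · intro h
      have := congrFun h ⟨0, hn⟩
      simp at this
    · rw [nsq_one, hRsq]
      have : (∑ i, (Pi.single (⟨0, hn⟩ : Fin n) (1 : ℤ) : Fin n → ℤ) i ^ 2 : ℤ) = 1 := by
        rw [Finset.sum_eq_single (⟨0, hn⟩ : Fin n)]
        · simp
        · intro j _ hj
          rw [Pi.single_eq_of_ne hj]
          norm_num
        · simp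
      rw [this]
      push_cast
      nlinarith
  obtain ⟨B, hB0, hBdet, hBmin, hBn⟩ := exists_sublat hn hdet1 F hmem hne
  rw [Matrix.det_one, abs_one, one_mul] at hBdet
  have hcard := card_int_ball hn hR0 F (fun w hw => ((hmem w).1 hw).2)
  have hbase : √(c / n) * (R + √n / 2) = √c * (s + 1 / 2) := by
    rw [hR, Real.sqrt_div hc0.le]
    have : √(n : ℝ) ≠ 0 := (Real.sqrt_pos.2 hn').ne'
    field_simp
  rw [hbase] at hcard
  have hdB : 0 < |B.det| := abs_pos.2 hB0
  have hpow : |B.det| ^ ((2 : ℝ) / n) ≤ c * (s + 1 / 2) ^ 2 := by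
    calc |B.det| ^ ((2 : ℝ) / n) ≤ ((√c * (s + 1 / 2)) ^ n) ^ ((2 : ℝ) / n) :=
          Real.rpow_le_rpow hdB.le (hBdet.trans hcard) (by positivity)
      _ = (√c * (s + 1 / 2)) ^ 2 := by
          rw [← Real.rpow_natCast (√c * (s + 1 / 2)) n, ← Real.rpow_mul (by positivity)]
          have e : (n : ℝ) * (2 / n) = ((2 : ℕ) : ℝ) := by push_cast; field_simp
          rw [e, Real.rpow_natCast]
      _ = c * (s + 1 / 2) ^ 2 := by rw [mul_pow, Real.sq_sqrt hc0.le]
  refine ⟨B, hB0, ?_, ?_, ?_⟩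
  · have hX : 0 < |B.det| ^ ((2 : ℝ) / n) := by positivity
    unfold hinv
    rw [div_div, div_le_div_iff₀ hc0 (by positivity)]
    rcases le_or_gt θ 0 with h0 | h0
    · calc θ * (|B.det| ^ ((2 : ℝ) / n) * n) ≤ 0 :=
            mul_nonpos_of_nonpos_of_nonneg h0 (by positivity)
        _ ≤ minSq B * c := mul_nonneg (minSq_nonneg B) hc0.le
    · have h1 : θ * (s + 1 / 2) ^ 2 ≤ s ^ 2 := by
        rw [div_le_iff₀ h1θ] at hsθ
        nlinarith
      calc θ * (|B.det| ^ ((2 : ℝ) / n) * n) ≤ θ * ((c * (s + 1 / 2) ^ 2) * n) := by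
            apply mul_le_mul_of_nonneg_left _ h0.le
            exact mul_le_mul_of_nonneg_right hpow hn'.le
        _ = (θ * (s + 1 / 2) ^ 2) * (c * n) := by ring
        _ ≤ s ^ 2 * (c * n) := mul_le_mul_of_nonneg_right h1 (by positivity)
        _ = R ^ 2 * c := by rw [hRsq]; ring
        _ ≤ minSq B * c := mul_le_mul_of_nonneg_right hBmin hc0.le
  · intro w
    obtain ⟨w', hw'⟩ := hBn w
    exact ⟨_, hw'.trans (nsq_one w')⟩
  · have h1 := value_le hn B hB0
    rw [div_le_iff₀ (by positivity)] at h1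
    calc minSq B ≤ n * |B.det| ^ ((2 : ℝ) / n) := h1
      _ ≤ n * (c * (s + 1 / 2) ^ 2) := mul_le_mul_of_nonneg_left hpow hn'.le
      _ = c * (s + 1 / 2) ^ 2 * n := by ring

end Pool.Agent.H442SN
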